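import Pool.Agent.H604.OD.Stm

/-!
# The diagonal Moebius-twisted Elliott-Halberstam sums for almost primes with prescribed parity over
`F_q[X]`, `q` even (helper604): statements of the parts

`F = M k + h` almost prime, `F - h = M k`.
-/

set_option autoImplicit false

namespace Pool.Agent.H604.DE

open Polynomial Finset
open scoped Classical
open Pool.Agent.H985.Chow (mob)
open Pool.Agent.H694.Typ (Mn Irn PU)
open Pool.Agent.H251.SP (S_tii)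
open Pool.Agent.H527.ME (om S_pw S_big S_div)
open Pool.Agent.H604.OD (phi Alp)

/-- **Task CL2.**  As `S_cls`, for the function `μ(M k) μ(M k + h)`. -/
def S_cls2 : Prop :=
  ∀ (K : Type) [Field K] [Fintype K] [CharP K 2] (ε : ℝ), 0 < ε →
    ∃ (C : ℕ) (c : ℝ), 0 < c ∧ ∃ n₀ : ℕ, ∀ n : ℕ, n₀ ≤ n →
    ∀ (d z w : ℕ) (h D r : K[X]) (u : K[X] → ℝ), 1 ≤ z → d + w ≤ n →
      (w : ℝ) ≤ (1 / 4 - ε) * n → h ≠ 0 → h.natDegree < n → D.Monic → D.natDegree < z →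
      (∀ M, |u M| ≤ 1) →
      |∑ M ∈ Mn K d, u M *
        ∑ k ∈ (Mn K (n - d)).filter (fun k => om z w k ≠ 0 ∧ D ∣ k - r),
          (mob (M * k) : ℝ) * (mob (M * k + h) : ℝ)| ≤
        (n : ℝ) ^ C * (Fintype.card K : ℝ) ^ (n + 2 * D.natDegree) *
          ((Fintype.card K : ℝ) ^ (-c * z) + (Fintype.card K : ℝ) ^ (-c * n))

/-- **Task TCL2.** -/
def S_tcl2 : Prop := S_tii → S_pw → S_big → S_cls2

/-- **Task BD2.**  As `S_bad`, for the function `μ(M k) μ(M k + h)`. -/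
def S_bad2 : Prop :=
  ∀ (K : Type) [Field K] [Fintype K] [CharP K 2] (ε c₀ : ℝ), 0 < ε → 0 < c₀ →
    ∃ δ : ℝ, 0 < δ ∧ ∃ n₀ : ℕ, ∀ n : ℕ, n₀ ≤ n →
    ∀ (d z w : ℕ) (h : K[X]), c₀ * n ≤ z → d + w ≤ n → (w : ℝ) ≤ (1 / 4 - ε) * n → h ≠ 0 →
      h.natDegree < n →
      (((Mn K d).filter (fun M => ∃ D r : K[X], D.Monic ∧ (D.natDegree : ℝ) ≤ δ * n ∧
        r.degree < D.degree ∧ (Fintype.card K : ℝ) ^ ((n : ℝ) - d - δ * n) <
          |∑ k ∈ (Mn K (n - d)).filter (fun k => om z w k ≠ 0 ∧ D ∣ k - r),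
            (mob (M * k) : ℝ) * (mob (M * k + h) : ℝ)|)).card : ℝ) ≤
        (Fintype.card K : ℝ) ^ ((d : ℝ) - δ * n)

/-- **Task TBD2.** -/
def S_tbd2 : Prop := S_cls2 → S_bad2

/-- **Task MUC.**  Cancellation of `μ(M k)` for `k` in residue classes, every `M`. -/
def S_muc : Prop :=
  ∀ (K : Type) [Field K] [Fintype K] (ε : ℝ), 0 < ε → ∃ δ : ℝ, 0 < δ ∧ ∃ n₀ : ℕ,
    ∀ n : ℕ, n₀ ≤ n → ∀ (d : ℕ) (M D r : K[X]), M ∈ Mn K d → (d : ℝ) ≤ (1 - ε) * n → D.Monic →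
      (D.natDegree : ℝ) ≤ δ * n →
      |∑ k ∈ (Mn K (n - d)).filter (fun k => D ∣ k - r), (mob (M * k) : ℝ)| ≤
        (Fintype.card K : ℝ) ^ ((n : ℝ) - d - δ * n)

/-- **Task PHA.**  The average of `|M| / φ(M)` is bounded. -/
def S_pha : Prop :=
  ∀ (K : Type) [Field K] [Fintype K], ∃ C : ℝ, 0 < C ∧ ∀ d : ℕ, ∑ M ∈ Mn K d, 1 / phi M ≤ C

end Pool.Agent.H604.DE
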