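import Pool.Agent.H604.OD.AsmG
import Pool.Agent.H604.DE.Stm

/-!
# Project DE: assembly (helper604)
-/

set_option autoImplicit false

namespace Pool.Agent.H604.DE

open Polynomial Finset
open scoped Classical
open Pool.Agent.H985.Chow (mob)
open Pool.Agent.H985.KP (PA)
open Pool.Agent.H694.Typ (Mn Irn PU mem_Mn mem_PU q_ge card_dvd_e card_Mn)
open Pool.Agent.H527.ME (om S_pw S_big S_div)
open Pool.Agent.H524.MT (Pm S_mert)
open Pool.Agent.H604.OD

/-- The sum of `μ(M k)` over the `k` with `M k + h` almost prime of the given parity. -/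
noncomputable def Tw {K : Type} [Field K] [Fintype K] (b : Bool) (l m : ℕ) (M h : K[X]) : ℝ :=
  ∑ k ∈ Tb b l m M h, (mob (M * k) : ℝ)

/-- The typical part. -/
noncomputable def Ft2 {K : Type} [Field K] [Fintype K] (z w : ℕ) (M h k : K[X]) : ℝ :=
  if om z w k ≠ 0 then (mob (M * k) : ℝ) * (mob (M * k + h) : ℝ) else 0

theorem mob2_abs {K : Type} [Field K] (F G : K[X]) : |(mob F : ℝ) * (mob G : ℝ)| ≤ 1 := by
  rw [abs_mul]
  exact mul_le_one₀ (mob_abs F) (abs_nonneg _) (mob_abs G)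

theorem Ft2_abs {K : Type} [Field K] [Fintype K] (z w : ℕ) (M h k : K[X]) :
    |Ft2 z w M h k| ≤ 1 := by
  unfold Ft2
  split_ifs
  · exact mob2_abs _ _
  · simp

theorem tw_eq {K : Type} [Field K] [Fintype K] (b : Bool) (l m : ℕ) (M h : K[X]) :
    2 * Tw b l m M h = ∑ k ∈ Sf l m M h, (mob (M * k) : ℝ) -
      ∑ k ∈ (Sf l m M h).filter (fun k => ¬ Squarefree (M * k + h)), (mob (M * k) : ℝ) +
      (if b then -1 else 1) * ∑ k ∈ Sf l m M h, (mob (M * k) : ℝ) * (mob (M * k + h) : ℝ) := by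
  unfold Tw Tb
  rw [sum_filter, sum_filter, mul_sum, mul_sum, ← sum_sub_distrib, ← sum_add_distrib]
  refine sum_congr rfl fun k _ => ?_
  have hm : (mob (M * k + h) : ℝ) = if Squarefree (M * k + h) then
      (-1) ^ Multiset.card (UniqueFactorizationMonoid.factors (M * k + h)) else 0 := by
    unfold mob
    split_ifs <;> simp
  rw [hm]
  by_cases hs : Squarefree (M * k + h)
  · by_cases ho : Odd (Multiset.card (UniqueFactorizationMonoid.factors (M * k + h)))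
    · cases b
      · simp [hs, ho, ho.neg_one_pow]
      · simp [hs, ho, ho.neg_one_pow]
        ring
    · have he := Nat.not_odd_iff_even.1 ho
      cases b
      · simp [hs, ho, he.neg_one_pow]
        ring
      · simp [hs, ho, he.neg_one_pow]
  · cases b
    · simp [hs]
    · simp [hs]

theorem tw_bound {K : Type} [Field K] [Fintype K] {n d m z w : ℕ} {M h : K[X]} {ε₁ X₀ : ℝ}
    (hM : M ∈ Mn K d) (hh : h.degree < (n : WithBot ℕ)) (hn : d ≤ n)
    (h1 : |∑ k ∈ Sf (n - d) m M h, (mob (M * k) : ℝ)| ≤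
      ε₁ * (VM M m * (Fintype.card K : ℝ) ^ (n - d)) + X₀)
    (h3 : |∑ k ∈ Sf (n - d) m M h, Ft2 z w M h k| ≤
      ε₁ * (VM M m * (Fintype.card K : ℝ) ^ (n - d)) + X₀)
    (hX : X₀ ≤ ε₁ * (VM M m * (Fintype.card K : ℝ) ^ (n - d)))
    (h4 : (((Sf (n - d) m M h).filter (fun k => om z w k = 0)).card : ℝ) ≤
      ε₁ * (VM M m * (Fintype.card K : ℝ) ^ (n - d)))
    (h5 : (((Mn K (n - d)).filter (fun k => ∃ P : K[X], P.Monic ∧ Irreducible P ∧
      m < P.natDegree ∧ P ^ 2 ∣ M * k + h)).card : ℝ) ≤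
      ε₁ * (VM M m * (Fintype.card K : ℝ) ^ (n - d))) (b : Bool) :
    |Tw b (n - d) m M h| ≤ 3 * (ε₁ * (VM M m * (Fintype.card K : ℝ) ^ (n - d))) := by
  set W := VM M m * (Fintype.card K : ℝ) ^ (n - d) with hW
  have e3 : |∑ k ∈ Sf (n - d) m M h, (mob (M * k) : ℝ) * (mob (M * k + h) : ℝ)| ≤
      3 * (ε₁ * W) := by
    have e4 : ∑ k ∈ Sf (n - d) m M h, (mob (M * k) : ℝ) * (mob (M * k + h) : ℝ) =
        ∑ k ∈ Sf (n - d) m M h, Ft2 z w M h k +
          ∑ k ∈ (Sf (n - d) m M h).filter (fun k => om z w k = 0),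
            (mob (M * k) : ℝ) * (mob (M * k + h) : ℝ) := by
      rw [sum_filter, ← sum_add_distrib]
      refine sum_congr rfl fun k _ => ?_
      unfold Ft2
      by_cases h : om z w k = 0
      · simp [h]
      · simp [h]
    have e5 : |∑ k ∈ (Sf (n - d) m M h).filter (fun k => om z w k = 0),
        (mob (M * k) : ℝ) * (mob (M * k + h) : ℝ)| ≤
        (((Sf (n - d) m M h).filter (fun k => om z w k = 0)).card : ℝ) := by
      refine (abs_sum_le_sum_abs _ _).trans ?_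
      refine (sum_le_sum fun k _ => mob2_abs (M * k) (M * k + h)).trans ?_
      rw [sum_const, nsmul_eq_mul, mul_one]
    rw [e4]
    refine (abs_add_le _ _).trans ?_
    linarith
  have e6 : |∑ k ∈ (Sf (n - d) m M h).filter (fun k => ¬ Squarefree (M * k + h)),
      (mob (M * k) : ℝ)| ≤ ε₁ * W := by
    refine (abs_sum_le_sum_abs _ _).trans ?_
    refine (sum_le_sum fun k _ => mob_abs (M * k)).trans ?_
    rw [sum_const, nsmul_eq_mul, mul_one]
    exact le_trans (by exact_mod_cast card_le_card (nonsq_le m hM hh hn)) h5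
  have e7 := tw_eq b (n - d) m M h
  have e8 : |(if b then (-1 : ℝ) else 1) *
      ∑ k ∈ Sf (n - d) m M h, (mob (M * k) : ℝ) * (mob (M * k + h) : ℝ)| ≤ 3 * (ε₁ * W) := by
    rw [abs_mul]
    have : |(if b then (-1 : ℝ) else 1)| = 1 := by cases b <;> simp
    rw [this, one_mul]
    exact e3
  rw [abs_le] at h1 e6 e8 ⊢
  constructor <;> linarith

/-- The bound in one class. -/
def S_perD : Prop :=
  ∀ (K : Type) [Field K] [Fintype K] [CharP K 2] (ε ε₁ : ℝ), 0 < ε → 0 < ε₁ →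
    ∃ κ₀ : ℝ, 0 < κ₀ ∧ ∀ κ : ℝ, 0 < κ → κ ≤ κ₀ → ∃ δ : ℝ, 0 < δ ∧ ∃ n₀ : ℕ, ∀ n : ℕ, n₀ ≤ n →
    ∀ (d : ℕ) (h : K[X]), (d : ℝ) ≤ (1 - ε) * n → h ≠ 0 → h.natDegree < n →
      ∃ Exc : Finset K[X], (Exc.card : ℝ) ≤ (Fintype.card K : ℝ) ^ ((d : ℝ) - δ * n) ∧
        ∀ M : K[X], M.Monic → M.natDegree = d → IsCoprime M h → M ∉ Exc → ∀ b : Bool,
          |Tw b (n - d) ⌊κ * n⌋₊ M h| ≤
              3 * (ε₁ * (VM M ⌊κ * n⌋₊ * (Fintype.card K : ℝ) ^ (n - d)))

theorem perD (hb : S_bad2) (hu : S_muc) (hm : S_mn) (ha : S_ats) (hs : S_sqf) (hv : S_vmb) :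
    S_perD := by
  intro K _ _ _ ε ε₁ hε hε₁
  have hq2 := q_ge (k := K)
  set q : ℝ := (Fintype.card K : ℝ) with hq
  have hq1 : (1 : ℝ) ≤ q := by linarith
  have hq0 : (0 : ℝ) < q := by linarith
  obtain ⟨Ca, Aa, hCa, hAa, Hat⟩ := ha K
  obtain ⟨cv, Cv, hcv, hCv, Hv⟩ := hv K
  obtain ⟨Am, hAm, Hm⟩ := hm K ε₁ hε₁
  have hAa' : (1 : ℝ) ≤ Aa := by exact_mod_cast hAa
  have hAm' : (1 : ℝ) ≤ Am := by exact_mod_cast hAm
  obtain ⟨c2, hc2, hc2a, hc2b⟩ : ∃ c2 : ℝ, 0 < c2 ∧ Aa * c2 ≤ ε ∧ c2 ≤ 1 / 8 := by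
    refine ⟨min (ε / Aa) (1 / 8), lt_min (by positivity) (by norm_num), ?_, min_le_right _ _⟩
    calc (Aa : ℝ) * min (ε / Aa) (1 / 8) ≤ Aa * (ε / Aa) :=
          mul_le_mul_of_nonneg_left (min_le_left _ _) (by positivity)
      _ = ε := by field_simp
  obtain ⟨c0, hc0, hc0a, hc0b⟩ : ∃ c0 : ℝ, 0 < c0 ∧ 4 * Ca * c0 ≤ ε₁ * c2 ∧ 4 * c0 ≤ c2 := by
    refine ⟨min (ε₁ * c2 / (4 * Ca)) (c2 / 4), lt_min (by positivity) (by positivity), ?_, ?_⟩
    · calc 4 * Ca * min (ε₁ * c2 / (4 * Ca)) (c2 / 4) ≤ 4 * Ca * (ε₁ * c2 / (4 * Ca)) :=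
            mul_le_mul_of_nonneg_left (min_le_left _ _) (by positivity)
        _ = ε₁ * c2 := by field_simp
    · have := min_le_right (ε₁ * c2 / (4 * Ca)) (c2 / 4)
      linarith
  obtain ⟨δ1, hδ1, nb, Hb⟩ := hb K (1 / 8) c0 (by norm_num) hc0
  obtain ⟨δ2, hδ2, nu, Hu⟩ := hu K ε hε
  obtain ⟨δb, hδb, hδb1, hδb2⟩ : ∃ δb : ℝ, 0 < δb ∧ δb ≤ δ1 ∧ δb ≤ δ2 :=
    ⟨min δ1 δ2, lt_min hδ1 hδ2, min_le_left _ _, min_le_right _ _⟩
  refine ⟨min (min ε δb) c0 / (12 * Am), div_pos (lt_min (lt_min hε hδb) hc0) (by positivity),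
    ?_⟩
  intro κ hκ hκ0
  have hκ1 : 12 * Am * κ ≤ min (min ε δb) c0 := by
    rw [le_div_iff₀ (by positivity)] at hκ0
    linarith
  have hκε : 12 * Am * κ ≤ ε := hκ1.trans ((min_le_left _ _).trans (min_le_left _ _))
  have hκδ : 12 * Am * κ ≤ δb := hκ1.trans ((min_le_left _ _).trans (min_le_right _ _))
  have hκc : 12 * Am * κ ≤ c0 := hκ1.trans (min_le_right _ _)
  obtain ⟨n1, -, H1⟩ := exp_beats 2 (κ / 8) (by positivity)
  obtain ⟨n2, -, H2⟩ := exp_beats (1 / (ε₁ * cv)) (κ / 8) (by positivity)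
  obtain ⟨n3, -, H3⟩ := exp_beats (1 / (ε₁ * cv)) (δb / 2) (by positivity)
  obtain ⟨n4, -, H4⟩ := exp_beats 1 (κ / 2) (by positivity)
  obtain ⟨n5, -, H5⟩ := exp_beats 2 (δb / 2) (by positivity)
  obtain ⟨n6, hn6⟩ := exists_nat_ge (4 / κ)
  obtain ⟨n7, hn7⟩ := exists_nat_ge (1 / c0)
  obtain ⟨n8, hn8⟩ := exists_nat_ge (2 / c2)
  refine ⟨min (δb / 2) (κ / 16), lt_min (by positivity) (by positivity),
    1 + nb + nu + n1 + n2 + n3 + n4 + n5 + n6 + n7 + n8, ?_⟩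
  intro n hn
  have hnpos : 1 ≤ n := by omega
  have hn1 : (1 : ℝ) ≤ n := by exact_mod_cast hnpos
  have hn0 : (0 : ℝ) < n := by linarith
  have G1 := H1 n (by omega)
  have G2 := H2 n (by omega)
  have G3 := H3 n (by omega)
  have G4 := H4 n (by omega)
  have G5 := H5 n (by omega)
  have G6 : 4 ≤ κ * n := by
    have h1 : 4 / κ ≤ n := hn6.trans (by exact_mod_cast (by omega : n6 ≤ n))
    rw [div_le_iff₀ hκ] at h1
    linarith
  have G7 : 1 ≤ c0 * n := by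
    have h1 : 1 / c0 ≤ n := hn7.trans (by exact_mod_cast (by omega : n7 ≤ n))
    rw [div_le_iff₀ hc0] at h1
    linarith
  have G8 : 2 ≤ c2 * n := by
    have h1 : 2 / c2 ≤ n := hn8.trans (by exact_mod_cast (by omega : n8 ≤ n))
    rw [div_le_iff₀ hc2] at h1
    linarith
  intro d h hd hh0 hhn
  have hdn' : (d : ℝ) ≤ n := by nlinarith
  have hdn : d ≤ n := by exact_mod_cast hdn'
  have hhdeg : h.degree < (n : WithBot ℕ) := by
    rw [degree_eq_natDegree hh0]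
    exact_mod_cast hhn
  obtain ⟨z, hz⟩ : ∃ z : ℕ, z = ⌈c0 * n⌉₊ := ⟨_, rfl⟩
  obtain ⟨w, hw⟩ : ∃ w : ℕ, w = ⌊c2 * n⌋₊ := ⟨_, rfl⟩
  obtain ⟨m, hmm⟩ : ∃ m : ℕ, m = ⌊κ * n⌋₊ := ⟨_, rfl⟩
  obtain ⟨⟨hz1, hz2, hw1, hw2, hm1, hm2⟩, hm4, hmz, hzw, hAw, hdw, hAmn, hAmδ, hn2m, hn2z⟩ :=
    nums hε hAa hAm hc2 hc2a hc0 hc0b hκ hκε hκδ hκc hn0 G4 G6 G7 G8 hd hz hw hmm
  rw [← hmm]
  have hw3 : (w : ℝ) ≤ (1 / 4 - 1 / 8) * n := by
    have := mul_le_mul_of_nonneg_right hc2b hn0.le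
    linarith
  have hBad := Hb n (by omega) d z w h hz1 hdw hw3 hh0 hhn
  set Bad := (Mn K d).filter (fun M => ∃ D r : K[X], D.Monic ∧ (D.natDegree : ℝ) ≤ δ1 * n ∧
        r.degree < D.degree ∧ q ^ ((n : ℝ) - d - δ1 * n) <
          |∑ k ∈ (Mn K (n - d)).filter (fun k => om z w k ≠ 0 ∧ D ∣ k - r),
            (mob (M * k) : ℝ) * (mob (M * k + h) : ℝ)|) with hBaddef
  have hδn1 : δb * n ≤ δ1 * n := mul_le_mul_of_nonneg_right hδb1 hn0.le
  have hδn2 : δb * n ≤ δ2 * n := mul_le_mul_of_nonneg_right hδb2 hn0.le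
  have hBad' : (Bad.card : ℝ) ≤ q ^ ((d : ℝ) - δb * n) :=
    hBad.trans (Real.rpow_le_rpow_of_exponent_le hq1 (by linarith))
  have hsqc := sq_card (K := K) (n := n) (d := d) (m := m) (h := h) hs hdn hhn
  refine ⟨Bad ∪ Sq K n d m h, ?_, ?_⟩
  · have e1 : (((Bad ∪ Sq K n d m h).card : ℕ) : ℝ) ≤ (Bad.card : ℝ) + ((Sq K n d m h).card : ℝ) := by
      exact_mod_cast card_union_le _ _
    refine e1.trans ((add_le_add hBad' hsqc).trans ?_)
    exact exc_card hq2 hn0 hδb hκ G1 G5 G6 hm2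
  · intro M hMm hMd hcop hMexc
    have hM : M ∈ Mn K d := mem_Mn.2 ⟨hMm, hMd⟩
    have hM0 : M ≠ 0 := hMm.ne_zero
    rw [mem_union, not_or] at hMexc
    obtain ⟨hnB, hnS⟩ := hMexc
    have hm0 : (0 : ℝ) < m := by exact_mod_cast hm4
    have hmn : (m : ℝ) ≤ n := by
      have : m ≤ Am * m := Nat.le_mul_of_pos_left m (by omega)
      have h2 : m ≤ n := by omega
      exact_mod_cast h2
    obtain ⟨hv1, hv2⟩ := Hv m M hm4 hMm (by omega)
    obtain ⟨hP0, hP1⟩ := Pm_bd hM0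
    have hVp := VM_pos M m
    have hVge : cv / m ≤ VM M m := hv1.trans (mul_le_of_le_one_right hVp.le hP1)
    have hqn : (0 : ℝ) < q ^ (n - d) := by positivity
    have hWp : 0 < VM M m * q ^ (n - d) := mul_pos hVp hqn
    have hql : q ^ (n - d) = q ^ ((n : ℝ) - d) := rpow_sub_nat hdn
    have hWge : cv / m * q ^ ((n : ℝ) - d) ≤ VM M m * q ^ (n - d) := by
      rw [← hql]
      exact mul_le_mul_of_nonneg_right hVge hqn.le
    have hX : q ^ (3 * Am * m) * q ^ ((n : ℝ) - d - δb * n) ≤ ε₁ * (VM M m * q ^ (n - d)) := by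
      have e1 : q ^ (3 * Am * m) * q ^ ((n : ℝ) - d - δb * n) =
          q ^ (((n : ℝ) - d) - (δb * n - 3 * (Am * m))) := by
        rw [← Real.rpow_natCast, ← Real.rpow_add hq0]
        congr 1
        push_cast
        ring
      rw [e1]
      have hAm0 : 0 ≤ (Am : ℝ) * m := by positivity
      refine (small hq2 hn0 hε₁ hcv hm0 hmn G3 (by linarith) (by positivity)).trans ?_
      exact mul_le_mul_of_nonneg_left hWge hε₁.le
    have hS : q ^ ((n : ℝ) - d - m / 4) ≤ ε₁ * (VM M m * q ^ (n - d)) := by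
      refine (small hq2 hn0 hε₁ hcv hm0 hmn G2 (by linarith) (by positivity)).trans ?_
      exact mul_le_mul_of_nonneg_left hWge hε₁.le
    have hnS' : (((Mn K (n - d)).filter (fun k => ∃ P : K[X], P.Monic ∧ Irreducible P ∧
        m < P.natDegree ∧ P ^ 2 ∣ M * k + h)).card : ℝ) ≤ ε₁ * (VM M m * q ^ (n - d)) := by
      refine le_trans ?_ hS
      by_contra hlt
      refine hnS ?_
      unfold Sq
      rw [mem_filter]
      exact ⟨hM, not_le.1 hlt⟩
    have hFD : ∀ D r : K[X], D.Monic → D.natDegree ≤ Am * m → r.degree < D.degree →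
        |∑ k ∈ (Mn K (n - d)).filter (fun k => D ∣ k - r), Ft2 z w M h k| ≤
          q ^ ((n : ℝ) - d - δb * n) := by
      intro D r hD hDd hr
      refine le_trans ?_ (Real.rpow_le_rpow_of_exponent_le hq1
        (show (n : ℝ) - d - δ1 * n ≤ (n : ℝ) - d - δb * n by linarith))
      by_contra hlt
      refine hnB ?_
      rw [hBaddef, mem_filter]
      refine ⟨hM, D, r, hD, ?_, hr, ?_⟩
      · have h1 : (D.natDegree : ℝ) ≤ Am * m := by exact_mod_cast hDd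
        have hAm0 : 0 ≤ (Am : ℝ) * m := by positivity
        linarith
      · have e1 : ∑ k ∈ (Mn K (n - d)).filter (fun k => om z w k ≠ 0 ∧ D ∣ k - r),
            (mob (M * k) : ℝ) * (mob (M * k + h) : ℝ) =
              ∑ k ∈ (Mn K (n - d)).filter (fun k => D ∣ k - r), Ft2 z w M h k := by
          rw [sum_filter, sum_filter]
          refine sum_congr rfl fun k _ => ?_
          unfold Ft2
          by_cases h1 : om z w k = 0 <;> by_cases h2 : D ∣ k - r <;> simp [h1, h2]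
        rw [e1]
        exact not_le.1 hlt
    have hFU : ∀ D r : K[X], D.Monic → D.natDegree ≤ Am * m → r.degree < D.degree →
        |∑ k ∈ (Mn K (n - d)).filter (fun k => D ∣ k - r), (mob (M * k) : ℝ)| ≤
          q ^ ((n : ℝ) - d - δb * n) := by
      intro D r hD hDd _
      refine (Hu n (by omega) d M D r hM hd hD ?_).trans
        (Real.rpow_le_rpow_of_exponent_le hq1 (by linarith))
      have h1 : (D.natDegree : ℝ) ≤ Am * m := by exact_mod_cast hDd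
      have hAm0 : 0 ≤ (Am : ℝ) * m := by positivity
      linarith
    obtain ⟨-, -, hs3⟩ := Hm n d m M h hM hcop hm4 hAmn
    have hs4 := hs3 (Ft2 z w M h) (q ^ ((n : ℝ) - d - δb * n)) (Ft2_abs z w M h)
      (Real.rpow_nonneg hq0.le _) hFD
    have hs5 := hs3 (fun k => (mob (M * k) : ℝ)) (q ^ ((n : ℝ) - d - δb * n))
      (fun k => mob_abs _) (Real.rpow_nonneg hq0.le _) hFU
    have hat := Hat n d m z w M h hM hcop hm4 hmz hzw hAw hn2z
    have hat' : (((Sf (n - d) m M h).filter (fun k => om z w k = 0)).card : ℝ) ≤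
        ε₁ * (VM M m * q ^ (n - d)) := by
      refine hat.trans ?_
      have hwp : (0 : ℝ) < w := by
        have : 1 ≤ w := by omega
        exact_mod_cast this
      have e1 : Ca * ((z : ℝ) / w) ≤ ε₁ := by
        rw [mul_div_assoc', div_le_iff₀ hwp]
        have e2 : Ca * (z : ℝ) ≤ Ca * (2 * c0 * n) := mul_le_mul_of_nonneg_left hz2 hCa.le
        have e3 : 4 * Ca * c0 * n ≤ ε₁ * c2 * n := mul_le_mul_of_nonneg_right hc0a hn0.le
        have e4 : ε₁ * (c2 * n / 2) ≤ ε₁ * w := mul_le_mul_of_nonneg_left hw2 hε₁.le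
        linarith
      rw [mul_assoc (Ca * ((z : ℝ) / w))]
      exact mul_le_mul_of_nonneg_right e1 hWp.le
    exact tw_bound hM hhdeg hdn (by rw [← mul_assoc ε₁ (VM M m)]; exact hs5)
      (by rw [← mul_assoc ε₁ (VM M m)]; exact hs4) hX hat' hnS'

end Pool.Agent.H604.DE
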