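import Pool.Agent.H604.DE.AsmA

/-!
# Project DE: the theorem (helper604)
-/

set_option autoImplicit false

namespace Pool.Agent.H604.DE

open Polynomial Finset
open scoped Classical
open Pool.Agent.H985.Chow (mob)
open Pool.Agent.H694.Typ (Mn Irn PU mem_Mn mem_PU q_ge card_dvd_e card_Mn)
open Pool.Agent.H524.MT (Pm S_mert)
open Pool.Agent.H604.OD

/-- The sum of `μ(F - h)` over the almost primes `F ≡ h mod M`. -/
noncomputable def TT {K : Type} [Field K] (b : Bool) (n y : ℕ) (M h : K[X]) : ℝ :=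
  ∑ᶠ F ∈ Alp b n y M h, (mob (F - h) : ℝ)

/-- **The theorem.** -/
def S_deh : Prop :=
  ∀ (K : Type) [Field K] [Fintype K] [CharP K 2], ∃ c C : ℝ, 0 < c ∧ 0 < C ∧
    ∀ (ε ε₀ : ℝ), 0 < ε → 0 < ε₀ → ∃ κ₀ : ℝ, 0 < κ₀ ∧ ∀ κ : ℝ, 0 < κ → κ ≤ κ₀ →
    ∃ δ : ℝ, 0 < δ ∧ ∃ n₀ : ℕ, ∀ n : ℕ, n₀ ≤ n → ∀ b : Bool,
      (c * ((Fintype.card K : ℝ) ^ n / (κ * n)) ≤
          ((Alp b n ⌊κ * n⌋₊ (1 : K[X]) 0).ncard : ℝ) ∧
        ((Alp b n ⌊κ * n⌋₊ (1 : K[X]) 0).ncard : ℝ) ≤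
          C * ((Fintype.card K : ℝ) ^ n / (κ * n))) ∧
      ∀ h : K[X], h ≠ 0 → h.natDegree < n →
        (∀ d : ℕ, (d : ℝ) ≤ (1 - ε) * n →
          ∃ Exc : Finset K[X], (Exc.card : ℝ) ≤ (Fintype.card K : ℝ) ^ ((d : ℝ) - δ * n) ∧
            ∀ M : K[X], M.Monic → M.natDegree = d → M ∉ Exc → IsCoprime M h →
              |TT b n ⌊κ * n⌋₊ M h| ≤
                ε₀ * (((Alp b n ⌊κ * n⌋₊ (1 : K[X]) 0).ncard : ℝ) / phi M)) ∧
        ∑ᶠ M ∈ {M : K[X] | M.Monic ∧ (M.natDegree : ℝ) ≤ (1 - ε) * n ∧ IsCoprime M h},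
          |TT b n ⌊κ * n⌋₊ M h - TT b n ⌊κ * n⌋₊ (1 : K[X]) h / phi M| ≤
          ε₀ * n * ((Alp b n ⌊κ * n⌋₊ (1 : K[X]) 0).ncard : ℝ)

theorem TT_eq {K : Type} [Field K] [Fintype K] (b : Bool) {n d m : ℕ} {M h : K[X]}
    (hM : M ∈ Mn K d) (hh : h.degree < (n : WithBot ℕ)) (hn : d ≤ n) :
    TT b n m M h = Tw b (n - d) m M h := by
  have hM0 : M ≠ 0 := (mem_Mn.1 hM).1.ne_zero
  have h1 : Alp b n m M h = (fun k => M * k + h) '' (Tb b (n - d) m M h : Set K[X]) := by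
    ext F
    simp only [Alp, Set.mem_ofPred_eq, Set.mem_image, Finset.mem_coe, Tb, Sf, mem_filter]
    constructor
    · rintro ⟨hF, hFn, ⟨k, hk⟩, hsq, hP, hpar⟩
      have hFk : F = M * k + h := by rw [← hk]; ring
      refine ⟨k, ⟨⟨?_, ?_⟩, ?_, ?_⟩, hFk.symm⟩
      · rw [← mem_iff hM hh hn, ← hFk, mem_Mn]
        exact ⟨hF, hFn⟩
      · intro P hPm hdvd
        rw [mem_PU] at hPm
        rw [← hFk] at hdvd
        have := hP P hPm.2.1 hdvd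
        omega
      · rw [← hFk]; exact hsq
      · rw [← hFk]; exact hpar
    · rintro ⟨k, ⟨⟨hk, hkP⟩, hsq, hpar⟩, rfl⟩
      have h2 := (mem_iff hM hh hn k).2 hk
      rw [mem_Mn] at h2
      refine ⟨h2.1, h2.2, ⟨k, by ring⟩, hsq, ?_, hpar⟩
      intro P hP hdvd
      by_contra hlt
      obtain ⟨n1, n2, n3, n4⟩ := norm_irr hP
      refine hkP (normalize P) ?_ ((n4 _).2 hdvd)
      rw [mem_PU]
      exact ⟨n1, n2, by omega⟩
  unfold TT Tw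
  rw [h1, finsum_mem_image, finsum_mem_coe_finset]
  · refine sum_congr rfl fun k _ => ?_
    rw [add_sub_cancel_right]
  · intro k _ k' _ hkk
    simp only at hkk
    exact mul_left_cancel₀ hM0 (add_right_cancel hkk)

theorem Tw_triv {K : Type} [Field K] [Fintype K] (b : Bool) (l m : ℕ) (M h : K[X]) :
    |Tw b l m M h| ≤ (Fintype.card K : ℝ) ^ l := by
  unfold Tw
  refine (abs_sum_le_sum_abs _ _).trans ?_
  refine (sum_le_sum fun k _ => mob_abs (M * k)).trans ?_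
  rw [sum_const, nsmul_eq_mul, mul_one]
  have h1 : (Tb b l m M h).card ≤ (Mn K l).card := by
    refine card_le_card ?_
    unfold Tb Sf
    exact (filter_subset _ _).trans (filter_subset _ _)
  rw [card_Mn] at h1
  exact_mod_cast h1

end Pool.Agent.H604.DE
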