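import Pool.Agent.H604.DE.AsmB

/-!
# Project DE: the final assembly (helper604)
-/

set_option autoImplicit false

namespace Pool.Agent.H604.DE

open Polynomial Finset
open scoped Classical
open Pool.Agent.H985.Chow (mob)
open Pool.Agent.H694.Typ (Mn Irn PU mem_Mn mem_PU q_ge card_dvd_e card_Mn)
open Pool.Agent.H524.MT (Pm S_mert)
open Pool.Agent.H604.OD

theorem phi_pos {K : Type} [Field K] [Fintype K] {M : K[X]} (hM : M ≠ 0) : 0 < phi M := by
  have hq2 := q_ge (k := K)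
  have hq0 : (0 : ℝ) < (Fintype.card K : ℝ) := by linarith
  rw [phi_eq]
  exact mul_pos (by positivity) (Pm_bd hM).1

/-- From the pointwise bounds to the sum over the moduli of degree `d`. -/
theorem sum_d {K : Type} [Field K] [Fintype K] {ε₂ A Cp : ℝ} {n d : ℕ} {S Exc : Finset K[X]}
    {T : K[X] → ℝ} {T1 : ℝ} (hS : S ⊆ Mn K d) (hε : 0 < ε₂) (hA : 0 < A) (hCp : 0 < Cp)
    (hp : ∑ M ∈ Mn K d, 1 / phi M ≤ Cp) (h1 : |T1| ≤ ε₂ * A)
    (h2 : ∀ M ∈ S, |T M| ≤ (Fintype.card K : ℝ) ^ (n - d))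
    (h3 : ∀ M ∈ S, M ∉ Exc → |T M| ≤ ε₂ * (A / phi M))
    (h4 : (Exc.card : ℝ) * (Fintype.card K : ℝ) ^ (n - d) ≤ ε₂ * A) :
    ∑ M ∈ S, |T M - T1 / phi M| ≤ (2 * Cp + 1) * (ε₂ * A) := by
  have hq2 := q_ge (k := K)
  have hq0 : (0 : ℝ) < (Fintype.card K : ℝ) := by linarith
  have hφ : ∀ M ∈ Mn K d, 0 < phi M := fun M hM => phi_pos (mem_Mn.1 hM).1.ne_zero
  have e1 : ∀ M ∈ S, |T M - T1 / phi M| ≤ 2 * (ε₂ * A) * (1 / phi M) +
      (if M ∈ Exc then (Fintype.card K : ℝ) ^ (n - d) else 0) := by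
    intro M hM
    have hφM := hφ M (hS hM)
    have e2 : |T1 / phi M| ≤ ε₂ * A * (1 / phi M) := by
      rw [abs_div, abs_of_pos hφM, mul_one_div]
      exact div_le_div_of_nonneg_right h1 hφM.le
    have e0 : 0 ≤ ε₂ * A * (1 / phi M) := by positivity
    have e3 : |T M - T1 / phi M| ≤ |T M| + |T1 / phi M| := abs_sub _ _
    split_ifs with h
    · have := h2 M hM
      linarith
    · have h5 := h3 M hM h
      have e4 : ε₂ * (A / phi M) = ε₂ * A * (1 / phi M) := by ring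
      rw [e4] at h5
      linarith
  refine (sum_le_sum e1).trans ?_
  rw [sum_add_distrib, ← mul_sum]
  have e5 : ∑ M ∈ S, 1 / phi M ≤ Cp := by
    refine le_trans (sum_le_sum_of_subset_of_nonneg hS fun M hM _ => ?_) hp
    have := hφ M hM
    positivity
  have e6 : ∑ M ∈ S, (if M ∈ Exc then (Fintype.card K : ℝ) ^ (n - d) else 0) ≤ ε₂ * A := by
    rw [← sum_filter, sum_const, nsmul_eq_mul]
    refine le_trans (mul_le_mul_of_nonneg_right ?_ (by positivity)) h4
    have : (S.filter (fun M => M ∈ Exc)).card ≤ Exc.card := by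
      refine card_le_card fun M hM => ?_
      rw [mem_filter] at hM
      exact hM.2
    exact_mod_cast this
  have e7 : 2 * (ε₂ * A) * ∑ M ∈ S, 1 / phi M ≤ 2 * (ε₂ * A) * Cp :=
    mul_le_mul_of_nonneg_left e5 (by positivity)
  linarith

theorem deh (hl : S_levN) (hd : S_perD) (hv : S_vmb) (hp : S_pha) : S_deh := by
  intro K _ _ _
  have hq2 := q_ge (k := K)
  set q : ℝ := (Fintype.card K : ℝ) with hq
  have hq1 : (1 : ℝ) ≤ q := by linarith
  have hq0 : (0 : ℝ) < q := by linarith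
  obtain ⟨c, C, hc, hC, Hl⟩ := hl K
  obtain ⟨cv, Cv, hcv, hCv, Hv⟩ := hv K
  obtain ⟨Cp, hCp, Hp⟩ := hp K
  refine ⟨c, C, hc, hC, ?_⟩
  intro ε ε₀ hε hε₀
  obtain ⟨ε₂, hε₂, hε₂a, hε₂b⟩ : ∃ ε₂ : ℝ, 0 < ε₂ ∧ ε₂ ≤ ε₀ ∧ 2 * (2 * Cp + 1) * ε₂ = ε₀ := by
    refine ⟨ε₀ / (2 * (2 * Cp + 1)), by positivity, ?_, by field_simp⟩
    rw [div_le_iff₀ (by positivity)]
    nlinarith
  obtain ⟨ε₁, hε₁, hε₁a⟩ : ∃ ε₁ : ℝ, 0 < ε₁ ∧ 3 * ε₁ * (2 * Cv / c) = ε₂ := by
    refine ⟨ε₂ * c / (6 * Cv), by positivity, ?_⟩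
    field_simp
    ring
  have hε' : 0 < min ε 1 := lt_min hε one_pos
  obtain ⟨κ₁, hκ₁, HD⟩ := hd K (min ε 1) ε₁ hε' hε₁
  obtain ⟨κ₂, hκ₂, HL⟩ := Hl (min ε 1) 1 hε' one_pos
  refine ⟨min κ₁ κ₂, lt_min hκ₁ hκ₂, ?_⟩
  intro κ hκ hκκ
  obtain ⟨δ, hδ, nD, HDn⟩ := HD κ hκ (hκκ.trans (min_le_left _ _))
  obtain ⟨δ', hδ', nL, HLn⟩ := HL κ hκ (hκκ.trans (min_le_right _ _))
  obtain ⟨n1, hn1, H1⟩ := exp_beats (κ / (ε₂ * c)) δ hδ
  obtain ⟨n2, hn2⟩ := exists_nat_ge (2 / κ)
  refine ⟨δ, hδ, nD + nL + n1 + n2, ?_⟩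
  intro n hn b
  obtain ⟨a1, -, -⟩ := HLn n (by omega)
  have ha := a1 b
  refine ⟨ha, ?_⟩
  intro h hh0 hhn
  obtain ⟨m, hmm⟩ : ∃ m : ℕ, m = ⌊κ * n⌋₊ := ⟨_, rfl⟩
  have hHD := HDn n (by omega)
  rw [← hmm] at ha hHD ⊢
  obtain ⟨A, hA⟩ : ∃ A : ℝ, A = ((Alp b n m (1 : K[X]) 0).ncard : ℝ) := ⟨_, rfl⟩
  rw [← hA] at ha ⊢
  obtain ⟨hA1, -⟩ := ha
  have hnpos : 1 ≤ n := by omega
  have hn0 : (0 : ℝ) < n := by exact_mod_cast hnpos
  have hn1' : (1 : ℝ) ≤ n := by exact_mod_cast hnpos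
  have hκn : 0 < κ * n := by positivity
  have hqn : 0 < q ^ n := by positivity
  have hA0 : 0 < A := lt_of_lt_of_le (by positivity) hA1
  have G6 : 2 ≤ κ * n := by
    have h1 : 2 / κ ≤ n := hn2.trans (by exact_mod_cast (by omega : n2 ≤ n))
    rw [div_le_iff₀ hκ] at h1
    linarith
  have hm2 : κ * n / 2 ≤ m := by
    have := (Nat.lt_floor_add_one (κ * n)).le
    rw [← hmm] at this
    linarith
  have hm1 : 1 ≤ m := by
    have : (1 : ℝ) ≤ m := by linarith
    exact_mod_cast this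
  have hm0 : (0 : ℝ) < m := by exact_mod_cast hm1
  have hV1 : 0 < VM (1 : K[X]) m := VM_pos _ _
  have hV1m : VM (1 : K[X]) m * Pm (1 : K[X]) = VM (1 : K[X]) m := by
    obtain ⟨r1, r2⟩ := VM_ratio (K := K) m monic_one
    rw [natDegree_one, Nat.cast_zero, zero_div, sub_zero, one_mul] at r1
    exact le_antisymm r2 r1
  have hφ1 : phi (1 : K[X]) = 1 := by
    have h1 : Pm (1 : K[X]) = 1 := mul_left_cancel₀ hV1.ne' (hV1m.trans (mul_one _).symm)
    rw [phi_eq, natDegree_one, pow_zero, one_mul, h1]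
  obtain ⟨hv1, hv2⟩ := Hv m 1 hm1 monic_one (by rw [natDegree_one]; exact Nat.zero_le _)
  rw [hV1m] at hv2
  have hVA : VM (1 : K[X]) m * q ^ n ≤ 2 * Cv / c * A := by
    have e1 : Cv / m ≤ Cv / (κ * n / 2) := div_le_div_of_nonneg_left hCv.le (by positivity) hm2
    have e2 : VM (1 : K[X]) m * q ^ n ≤ Cv / (κ * n / 2) * q ^ n :=
      mul_le_mul_of_nonneg_right (hv2.trans e1) hqn.le
    have e3 : Cv / (κ * n / 2) * q ^ n = 2 * Cv / c * (c * (q ^ n / (κ * n))) := by
      field_simp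
    rw [e3] at e2
    exact e2.trans (mul_le_mul_of_nonneg_left hA1 (by positivity))
  have hhdeg : h.degree < (n : WithBot ℕ) := by
    rw [degree_eq_natDegree hh0]
    exact_mod_cast hhn
  have hmain : ∀ d : ℕ, (d : ℝ) ≤ (1 - min ε 1) * n → d ≤ n ∧
      ∃ Exc : Finset K[X], (Exc.card : ℝ) ≤ q ^ ((d : ℝ) - δ * n) ∧
        ∀ M : K[X], M.Monic → M.natDegree = d → M ∉ Exc → IsCoprime M h →
          |TT b n m M h| ≤ ε₂ * (A / phi M) := by
    intro d hd1
    have hdn : d ≤ n := by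
      have : (d : ℝ) ≤ n := by nlinarith
      exact_mod_cast this
    refine ⟨hdn, ?_⟩
    obtain ⟨Exc, hE1, hE2⟩ := hHD d h hd1 hh0 hhn
    refine ⟨Exc, hE1, ?_⟩
    intro M hM hMd hMe hcop
    have h1 := hE2 M hM hMd hcop hMe b
    have hMm : M ∈ Mn K d := mem_Mn.2 ⟨hM, hMd⟩
    rw [TT_eq b hMm hhdeg hdn]
    refine h1.trans ?_
    obtain ⟨r1, r2⟩ := VM_ratio (K := K) m hM
    have hφ : phi M = q ^ d * Pm M := by rw [phi_eq, hMd]
    have hφ0 : 0 < phi M := phi_pos hM.ne_zero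
    have e1 : q ^ n = q ^ d * q ^ (n - d) := by
      rw [← pow_add]
      congr 1
      omega
    have e2 : VM M m * q ^ (n - d) * phi M = VM M m * Pm M * q ^ n := by
      rw [hφ, e1]
      ring
    have e3 : VM M m * q ^ (n - d) * phi M ≤ 2 * Cv / c * A := by
      rw [e2]
      exact (mul_le_mul_of_nonneg_right r2 hqn.le).trans hVA
    have e4 : VM M m * q ^ (n - d) ≤ 2 * Cv / c * A / phi M := by
      rw [le_div_iff₀ hφ0]
      exact e3
    calc 3 * (ε₁ * (VM M m * q ^ (n - d))) = 3 * ε₁ * (VM M m * q ^ (n - d)) := by ring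
      _ ≤ 3 * ε₁ * (2 * Cv / c * A / phi M) := mul_le_mul_of_nonneg_left e4 (by positivity)
      _ = 3 * ε₁ * (2 * Cv / c) * (A / phi M) := by ring
      _ = ε₂ * (A / phi M) := by rw [hε₁a]
  have hεε : (1 - ε) * n ≤ (1 - min ε 1) * n :=
    mul_le_mul_of_nonneg_right (by linarith [min_le_left ε 1]) hn0.le
  refine ⟨?_, ?_⟩
  · intro d hd1
    obtain ⟨-, Exc, hE1, hE2⟩ := hmain d (hd1.trans hεε)
    refine ⟨Exc, hE1, fun M hM hMd hMe hcop => (hE2 M hM hMd hMe hcop).trans ?_⟩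
    have := phi_pos hM.ne_zero
    exact mul_le_mul_of_nonneg_right hε₂a (by positivity)
  · -- the modulus 1
    have hT1 : |TT b n m (1 : K[X]) h| ≤ ε₂ * A := by
      obtain ⟨-, Exc, hE1, hE2⟩ := hmain 0 (by
        push_cast
        exact mul_nonneg (by linarith [min_le_right ε 1]) hn0.le)
      have hE3 : (Exc.card : ℝ) < 1 := by
        refine lt_of_le_of_lt hE1 ?_
        apply Real.rpow_lt_one_of_one_lt_of_neg (by linarith)
        push_cast
        have : 0 < δ * n := by positivity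
        linarith
      have hE4 : Exc.card = 0 := by
        have : Exc.card < 1 := by exact_mod_cast hE3
        omega
      have hE5 : (1 : K[X]) ∉ Exc := by
        rw [card_eq_zero.1 hE4]
        exact notMem_empty _
      have h1 := hE2 1 monic_one natDegree_one hE5 isCoprime_one_left
      rw [hφ1, div_one] at h1
      exact h1
    have hset : {M : K[X] | M.Monic ∧ (M.natDegree : ℝ) ≤ (1 - ε) * n ∧ IsCoprime M h} =
        (((range (n + 1)).biUnion (fun d => (Mn K d).filter (fun M =>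
          (M.natDegree : ℝ) ≤ (1 - ε) * n ∧ IsCoprime M h)) : Finset K[X]) : Set K[X]) := by
      ext M
      rw [Finset.mem_coe, mem_biUnion]
      constructor
      · rintro ⟨h1, h2, h3⟩
        refine ⟨M.natDegree, ?_, ?_⟩
        · rw [mem_range]
          have : (M.natDegree : ℝ) ≤ n := by nlinarith
          have : M.natDegree ≤ n := by exact_mod_cast this
          omega
        · rw [mem_filter]
          exact ⟨mem_Mn.2 ⟨h1, rfl⟩, h2, h3⟩
      · rintro ⟨d, -, h1⟩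
        rw [mem_filter] at h1
        exact ⟨(mem_Mn.1 h1.1).1, h1.2.1, h1.2.2⟩
    rw [hset, finsum_mem_coe_finset, sum_biUnion]
    · have e1 : ∀ d ∈ range (n + 1), ∑ M ∈ (Mn K d).filter (fun M =>
          (M.natDegree : ℝ) ≤ (1 - ε) * n ∧ IsCoprime M h),
          |TT b n m M h - TT b n m (1 : K[X]) h / phi M| ≤ (2 * Cp + 1) * (ε₂ * A) := by
        intro d _
        by_cases hd1 : (d : ℝ) ≤ (1 - ε) * n
        · obtain ⟨hdn, Exc, hE1, hE2⟩ := hmain d (hd1.trans hεε)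
          refine sum_d (n := n) (Exc := Exc) (filter_subset _ _) hε₂ hA0 hCp (Hp d) hT1 ?_ ?_ ?_
          · intro M hM
            rw [mem_filter] at hM
            rw [TT_eq b hM.1 hhdeg hdn]
            exact Tw_triv b _ _ _ _
          · intro M hM hMe
            rw [mem_filter] at hM
            obtain ⟨h1, h2⟩ := mem_Mn.1 hM.1
            exact hE2 M h1 h2 hMe hM.2.2
          · have e2 : q ^ (n - d) = q ^ ((n : ℝ) - d) := rpow_sub_nat hdn
            have e3 : (Exc.card : ℝ) * q ^ (n - d) ≤ q ^ ((n : ℝ) - δ * n) := by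
              rw [e2]
              refine (mul_le_mul_of_nonneg_right hE1 (Real.rpow_nonneg hq0.le _)).trans
                (le_of_eq ?_)
              rw [← Real.rpow_add hq0]
              congr 1
              ring
            refine e3.trans ?_
            have e4 : κ / (ε₂ * c) * ((n : ℝ) + 1) ≤ q ^ (δ * n) :=
              (H1 n (by omega)).trans (Real.rpow_le_rpow (by norm_num) hq2 (by positivity))
            have e5 : q ^ ((n : ℝ) - δ * n) * q ^ (δ * n) = q ^ n := by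
              rw [← Real.rpow_add hq0, ← Real.rpow_natCast]
              congr 1
              ring
            have e6 : 0 < q ^ ((n : ℝ) - δ * n) := Real.rpow_pos_of_pos hq0 _
            have e7 : q ^ ((n : ℝ) - δ * n) * (κ / (ε₂ * c) * n) ≤ q ^ n := by
              rw [← e5]
              refine mul_le_mul_of_nonneg_left (le_trans ?_ e4) e6.le
              exact mul_le_mul_of_nonneg_left (by linarith) (by positivity)
            have e8 : q ^ ((n : ℝ) - δ * n) = ε₂ * (c * (q ^ ((n : ℝ) - δ * n) *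
                (κ / (ε₂ * c) * n) / (κ * n))) := by
              field_simp
            rw [e8]
            refine mul_le_mul_of_nonneg_left (le_trans ?_ hA1) hε₂.le
            refine mul_le_mul_of_nonneg_left ?_ hc.le
            exact div_le_div_of_nonneg_right e7 hκn.le
        · rw [filter_false_of_mem, sum_empty]
          · positivity
          · intro M hM h1
            rw [(mem_Mn.1 hM).2] at h1
            exact hd1 h1.1
      refine (sum_le_card_nsmul _ _ _ e1).trans ?_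
      rw [nsmul_eq_mul, card_range, ← hε₂b]
      push_cast
      have e9 : ((n : ℝ) + 1) * ((2 * Cp + 1) * (ε₂ * A)) ≤ (2 * n) * ((2 * Cp + 1) * (ε₂ * A)) :=
        mul_le_mul_of_nonneg_right (by linarith) (by positivity)
      refine e9.trans (le_of_eq ?_)
      ring
    · intro d _ d' _ hdd
      rw [Function.onFun, disjoint_left]
      intro M h1 h2
      rw [mem_filter] at h1 h2
      exact hdd ((mem_Mn.1 h1.1).2.symm.trans (mem_Mn.1 h2.1).2)

end Pool.Agent.H604.DE
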