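import Pool.Agent.H604.DE.Stm

set_option autoImplicit false

/-! # The exceptional moduli: a union bound over the classes modulo small `D` -/

namespace Pool.Agent.H604.DE

open Polynomial Finset
open scoped Classical
open Pool.Agent.H985.Chow (mob)
open Pool.Agent.H694.Typ (Mn Irn PU mem_Mn card_Mn)
open Pool.Agent.H527.ME (om)

namespace Bd2

theorem markov {ι : Type} (s : Finset ι) (S : ι → ℝ) (R t : ℝ)
    (h : ∀ u : ι → ℝ, (∀ i, |u i| ≤ 1) → |∑ i ∈ s, u i * S i| ≤ R) :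
    ((s.filter (fun i => t < |S i|)).card : ℝ) * t ≤ R := by
  have h1 := h (fun i => if t < |S i| then (if 0 ≤ S i then 1 else -1) else 0) (by
    intro i
    show |(if t < |S i| then (if 0 ≤ S i then (1 : ℝ) else -1) else 0)| ≤ 1
    split_ifs <;> simp)
  have h2 : ∑ i ∈ s, (fun i => if t < |S i| then (if 0 ≤ S i then (1 : ℝ) else -1) else 0) i * S i =
      ∑ i ∈ s.filter (fun i => t < |S i|), |S i| := by
    rw [sum_filter]
    refine sum_congr rfl fun i _ => ?_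
    show (if t < |S i| then (if 0 ≤ S i then (1 : ℝ) else -1) else 0) * S i = _
    split_ifs with h3 h4
    · rw [one_mul, abs_of_nonneg h4]
    · rw [abs_of_neg (not_le.1 h4)]
      ring
    · rw [zero_mul]
  rw [h2] at h1
  refine le_trans ?_ ((le_abs_self _).trans h1)
  calc ((s.filter (fun i => t < |S i|)).card : ℝ) * t = ∑ i ∈ s.filter (fun i => t < |S i|), t := by
        rw [sum_const, nsmul_eq_mul]
    _ ≤ _ := sum_le_sum fun i hi => (mem_filter.1 hi).2.le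

theorem card_bu {ι β : Type} [DecidableEq β] (s : Finset ι) (t : ι → Finset β) (B : ℝ) (h : ∀ a ∈ s, ((t a).card : ℝ) ≤ B) :
    ((s.biUnion t).card : ℝ) ≤ s.card * B := by
  calc ((s.biUnion t).card : ℝ) ≤ ((∑ a ∈ s, (t a).card : ℕ) : ℝ) := by exact_mod_cast card_biUnion_le
    _ = ∑ a ∈ s, ((t a).card : ℝ) := by push_cast; rfl
    _ ≤ ∑ _a ∈ s, B := sum_le_sum h
    _ = _ := by rw [sum_const, nsmul_eq_mul]

variable {K : Type} [Field K] [Fintype K]

theorem q_ge : (2 : ℝ) ≤ (Fintype.card K : ℝ) := by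
  have h : 1 < Fintype.card K := Fintype.one_lt_card
  exact_mod_cast h

theorem union (d N : ℕ) (Pb : K[X] → K[X] → K[X] → Prop) (B : ℝ) (hB0 : 0 ≤ B)
    (hB : ∀ D r : K[X], D.Monic → D.natDegree ≤ N → r.degree < D.degree →
      (((Mn K d).filter (fun M => Pb D r M)).card : ℝ) ≤ B) :
    (((Mn K d).filter (fun M => ∃ D r : K[X], D.Monic ∧ D.natDegree ≤ N ∧ r.degree < D.degree ∧
      Pb D r M)).card : ℝ) ≤
      ((N : ℝ) + 1) * ((Fintype.card K : ℝ) ^ N * ((Fintype.card K : ℝ) ^ N * B)) := by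
  have hq := q_ge (K := K)
  obtain ⟨T, hT⟩ : ∃ T, T = (range (N + 1)).biUnion fun j => (Mn K j).biUnion fun D =>
    (Mn K j).biUnion fun f => (Mn K d).filter (fun M => Pb D (f - X ^ j) M) := ⟨_, rfl⟩
  have hsub : (Mn K d).filter (fun M => ∃ D r : K[X], D.Monic ∧ D.natDegree ≤ N ∧ r.degree < D.degree ∧
      Pb D r M) ⊆ T := by
    intro M hM
    rw [mem_filter] at hM
    obtain ⟨hM1, D, r, hD, hDN, hr, hP⟩ := hM
    rw [hT]
    have hDd : D.degree = (D.natDegree : WithBot ℕ) := degree_eq_natDegree hD.ne_zero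
    rw [hDd] at hr
    rw [mem_biUnion]
    refine ⟨D.natDegree, mem_range.2 (by omega), ?_⟩
    rw [mem_biUnion]
    refine ⟨D, mem_Mn.2 ⟨hD, rfl⟩, ?_⟩
    rw [mem_biUnion]
    refine ⟨X ^ D.natDegree + r, mem_Mn.2 ⟨monic_X_pow_add hr, natDegree_eq_of_degree_eq_some
      ((degree_add_eq_left_of_degree_lt (by rw [degree_X_pow]; exact hr)).trans (degree_X_pow _))⟩, ?_⟩
    rw [mem_filter]
    refine ⟨hM1, ?_⟩
    rw [add_sub_cancel_left]
    exact hP
  have h1 : (((Mn K d).filter (fun M => ∃ D r : K[X], D.Monic ∧ D.natDegree ≤ N ∧ r.degree < D.degree ∧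
      Pb D r M)).card : ℝ) ≤ T.card := by exact_mod_cast card_le_card hsub
  refine h1.trans ?_
  have h2 : ∀ j ∈ range (N + 1), ((((Mn K j).biUnion fun D => (Mn K j).biUnion fun f =>
      (Mn K d).filter (fun M => Pb D (f - X ^ j) M)).card : ℕ) : ℝ) ≤
      (Fintype.card K : ℝ) ^ N * ((Fintype.card K : ℝ) ^ N * B) := by
    intro j hj
    rw [mem_range] at hj
    have hjN : (Fintype.card K : ℝ) ^ j ≤ (Fintype.card K : ℝ) ^ N :=
      pow_le_pow_right₀ (by linarith) (by omega)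
    have h3 : ∀ D ∈ Mn K j, ((((Mn K j).biUnion fun f =>
        (Mn K d).filter (fun M => Pb D (f - X ^ j) M)).card : ℕ) : ℝ) ≤ (Fintype.card K : ℝ) ^ N * B := by
      intro D hD
      have h4 : ∀ f ∈ Mn K j, ((((Mn K d).filter (fun M => Pb D (f - X ^ j) M)).card : ℕ) : ℝ) ≤ B := by
        intro f hf
        rw [mem_Mn] at hD hf
        refine hB D (f - X ^ j) hD.1 (by omega) ?_
        have hDd : D.degree = (j : WithBot ℕ) := by
          rw [degree_eq_natDegree hD.1.ne_zero, hD.2]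
        have hfd : f.degree = (j : WithBot ℕ) := by
          rw [degree_eq_natDegree hf.1.ne_zero, hf.2]
        rw [hDd, ← hfd]
        refine degree_sub_lt_left ?_ hf.1.ne_zero ?_
        · rw [hfd, degree_X_pow]
        · rw [hf.1.leadingCoeff, (monic_X_pow j).leadingCoeff]
      refine (card_bu _ _ B h4).trans ?_
      rw [card_Mn]
      push_cast
      gcongr
    refine (card_bu _ _ _ h3).trans ?_
    rw [card_Mn]
    push_cast
    gcongr
  have h5 := card_bu (range (N + 1)) _ _ h2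
  rw [hT]
  refine h5.trans (le_of_eq ?_)
  rw [card_range]
  push_cast
  ring

theorem growth (C : ℕ) (c : ℝ) (hc : 0 < c) : ∃ n₁ : ℕ, 1 ≤ n₁ ∧ ∀ n : ℕ, n₁ ≤ n →
    2 * ((n : ℝ) + 1) * (n : ℝ) ^ C ≤ (2 : ℝ) ^ (c * n) := by
  have hr : (1 : ℝ) < (2 : ℝ) ^ c := Real.one_lt_rpow (by norm_num) hc
  have h1 := isLittleO_pow_const_const_pow_of_one_lt (R := ℝ) (C + 1) hr
  have h2 := h1.bound (show (0 : ℝ) < 1 / 4 by norm_num)
  obtain ⟨n₁, hn₁⟩ := Filter.eventually_atTop.1 h2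
  refine ⟨max n₁ 1, le_max_right _ _, fun n hn => ?_⟩
  have h3 := hn₁ n ((le_max_left _ _).trans hn)
  have h4 : (1 : ℝ) ≤ n := by exact_mod_cast (le_max_right n₁ 1).trans hn
  rw [Real.norm_of_nonneg (by positivity), Real.norm_of_nonneg (by positivity)] at h3
  rw [Real.rpow_mul (by norm_num), Real.rpow_natCast]
  have h5 : (0 : ℝ) ≤ (n : ℝ) ^ C := by positivity
  have h6 : (n : ℝ) ^ (C + 1) = n * (n : ℝ) ^ C := by ring
  rw [h6] at h3
  nlinarith

end Bd2

theorem tbd2 : S_tbd2 := by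
  intro hcls K _ _ _ ε c₀ hε hc₀
  obtain ⟨C, c, hc, n₀, H⟩ := hcls K ε hε
  have hq := Bd2.q_ge (K := K)
  obtain ⟨q, hqd⟩ : ∃ q : ℝ, q = (Fintype.card K : ℝ) := ⟨_, rfl⟩
  rw [← hqd] at hq
  have hq0 : 0 < q := by linarith
  have hq1 : 1 ≤ q := by linarith
  obtain ⟨c', hc'⟩ : ∃ c' : ℝ, c' = min (c * c₀) c := ⟨_, rfl⟩
  have hc'0 : 0 < c' := by rw [hc']; exact lt_min (by positivity) hc
  have hc'1 : c' ≤ c * c₀ := by rw [hc']; exact min_le_left _ _
  have hc'2 : c' ≤ c := by rw [hc']; exact min_le_right _ _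
  obtain ⟨δ, hδd⟩ : ∃ δ : ℝ, δ = min 1 (min (c₀ / 2) (c' / 12)) := ⟨_, rfl⟩
  have hδ0 : 0 < δ := by
    rw [hδd]
    exact lt_min one_pos (lt_min (by positivity) (by positivity))
  have hδ1 : δ ≤ 1 := by rw [hδd]; exact min_le_left _ _
  have hδ2 : δ ≤ c₀ / 2 := by rw [hδd]; exact (min_le_right _ _).trans (min_le_left _ _)
  have hδ3 : δ ≤ c' / 12 := by rw [hδd]; exact (min_le_right _ _).trans (min_le_right _ _)
  obtain ⟨n₁, hn₁, hgr⟩ := Bd2.growth C (c' / 2) (by positivity)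
  refine ⟨δ, hδ0, max n₀ n₁, ?_⟩
  intro n hn d z w h hz hdw hw hh hhn
  have hnn₀ : n₀ ≤ n := (le_max_left _ _).trans hn
  have hnn₁ : n₁ ≤ n := (le_max_right _ _).trans hn
  have hn1 : (1 : ℝ) ≤ n := by exact_mod_cast hn₁.trans hnn₁
  have hg := hgr n hnn₁
  have hz1 : 1 ≤ z := by
    have : (0 : ℝ) < z := lt_of_lt_of_le (by positivity) hz
    exact_mod_cast this
  obtain ⟨N, hN⟩ : ∃ N : ℕ, N = ⌊δ * n⌋₊ := ⟨_, rfl⟩
  have hNle : (N : ℝ) ≤ δ * n := by rw [hN]; exact Nat.floor_le (by positivity)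
  rw [← hqd]
  obtain ⟨B, hB⟩ : ∃ B : ℝ, B = 2 * (n : ℝ) ^ C * q ^ ((d : ℝ) + 3 * (δ * n) - c' * n) := ⟨_, rfl⟩
  have hB0 : 0 ≤ B := by rw [hB]; positivity
  have key : ∀ D r : K[X], D.Monic → D.natDegree ≤ N → r.degree < D.degree →
      (((Mn K d).filter (fun M => q ^ ((n : ℝ) - d - δ * n) <
          |∑ k ∈ (Mn K (n - d)).filter (fun k => om z w k ≠ 0 ∧ D ∣ k - r),
            (mob (M * k) : ℝ) * (mob (M * k + h) : ℝ)|)).card : ℝ) ≤ B := by
    intro D r hD hDN _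
    have hDz : D.natDegree < z := by
      have h1 : (D.natDegree : ℝ) ≤ N := by exact_mod_cast hDN
      have h2 : (D.natDegree : ℝ) < z := by
        refine lt_of_le_of_lt (h1.trans hNle) (lt_of_lt_of_le ?_ hz)
        have : δ * n ≤ c₀ / 2 * n := by gcongr
        have : 0 < c₀ * n := by positivity
        linarith
      exact_mod_cast h2
    have h1 := Bd2.markov (Mn K d) (fun M => ∑ k ∈ (Mn K (n - d)).filter (fun k => om z w k ≠ 0 ∧ D ∣ k - r),
      (mob (M * k) : ℝ) * (mob (M * k + h) : ℝ)) _ (q ^ ((n : ℝ) - d - δ * n))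
      (fun u hu => H n hnn₀ d z w h D r u hz1 hdw hw hh hhn hD hDz hu)
    rw [← hqd] at h1
    have hpos : 0 < q ^ ((n : ℝ) - d - δ * n) := by positivity
    rw [← le_div_iff₀ hpos] at h1
    refine h1.trans ?_
    rw [div_le_iff₀ hpos, hB]
    have h2 : q ^ (n + 2 * D.natDegree) ≤ q ^ ((n : ℝ) + 2 * (δ * n)) := by
      rw [← Real.rpow_natCast]
      refine Real.rpow_le_rpow_of_exponent_le hq1 ?_
      push_cast
      have h3 : (D.natDegree : ℝ) ≤ N := by exact_mod_cast hDN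
      linarith
    have h4 : q ^ (-c * z) ≤ q ^ (-(c' * n)) := by
      refine Real.rpow_le_rpow_of_exponent_le hq1 ?_
      have h5 : c * (c₀ * n) ≤ c * z := by gcongr
      have h6 : c' * n ≤ c * c₀ * n := by gcongr
      linarith
    have h7 : q ^ (-c * n) ≤ q ^ (-(c' * n)) := by
      refine Real.rpow_le_rpow_of_exponent_le hq1 ?_
      have h6 : c' * n ≤ c * n := by gcongr
      linarith
    have e : 2 * (n : ℝ) ^ C * q ^ ((d : ℝ) + 3 * (δ * n) - c' * n) * q ^ ((n : ℝ) - d - δ * n) =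
        (n : ℝ) ^ C * q ^ ((n : ℝ) + 2 * (δ * n)) * (q ^ (-(c' * n)) + q ^ (-(c' * n))) := by
      have e1 : q ^ ((d : ℝ) + 3 * (δ * n) - c' * n) * q ^ ((n : ℝ) - d - δ * n) =
          q ^ ((n : ℝ) + 2 * (δ * n)) * q ^ (-(c' * n)) := by
        rw [← Real.rpow_add hq0, ← Real.rpow_add hq0]
        congr 1
        ring
      calc _ = 2 * (n : ℝ) ^ C * (q ^ ((d : ℝ) + 3 * (δ * n) - c' * n) * q ^ ((n : ℝ) - d - δ * n)) := by ring
        _ = _ := by
          rw [e1]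
          ring
    rw [e]
    gcongr
  have hun := Bd2.union d N (fun D r M => q ^ ((n : ℝ) - d - δ * n) <
          |∑ k ∈ (Mn K (n - d)).filter (fun k => om z w k ≠ 0 ∧ D ∣ k - r),
            (mob (M * k) : ℝ) * (mob (M * k + h) : ℝ)|) B hB0 key
  rw [← hqd] at hun
  have hset : (Mn K d).filter (fun M => ∃ D r : K[X], D.Monic ∧ (D.natDegree : ℝ) ≤ δ * n ∧
        r.degree < D.degree ∧ q ^ ((n : ℝ) - d - δ * n) <
          |∑ k ∈ (Mn K (n - d)).filter (fun k => om z w k ≠ 0 ∧ D ∣ k - r),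
            (mob (M * k) : ℝ) * (mob (M * k + h) : ℝ)|) = (Mn K d).filter (fun M => ∃ D r : K[X], D.Monic ∧ D.natDegree ≤ N ∧
        r.degree < D.degree ∧ q ^ ((n : ℝ) - d - δ * n) <
          |∑ k ∈ (Mn K (n - d)).filter (fun k => om z w k ≠ 0 ∧ D ∣ k - r),
            (mob (M * k) : ℝ) * (mob (M * k + h) : ℝ)|) := by
    refine filter_congr fun M _ => ?_
    refine exists_congr fun D => exists_congr fun r => and_congr_right fun _ => and_congr_left fun _ => ?_
    rw [hN, Nat.le_floor_iff (by positivity)]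
  rw [hset]
  refine hun.trans ?_
  have hqN : q ^ N ≤ q ^ (δ * n) := by
    rw [← Real.rpow_natCast]
    exact Real.rpow_le_rpow_of_exponent_le hq1 hNle
  have hN1 : (N : ℝ) + 1 ≤ n + 1 := by
    have : δ * n ≤ 1 * n := by gcongr
    linarith
  calc ((N : ℝ) + 1) * (q ^ N * (q ^ N * B)) ≤ ((n : ℝ) + 1) * (q ^ (δ * n) * (q ^ (δ * n) * B)) := by gcongr
    _ = (2 * ((n : ℝ) + 1) * (n : ℝ) ^ C) * (q ^ (δ * n) * q ^ (δ * n) * q ^ ((d : ℝ) + 3 * (δ * n) - c' * n)) := by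
        rw [hB]
        ring
    _ ≤ q ^ (c' / 2 * n) * (q ^ (δ * n) * q ^ (δ * n) * q ^ ((d : ℝ) + 3 * (δ * n) - c' * n)) := by
        refine mul_le_mul_of_nonneg_right (hg.trans ?_) (by positivity)
        exact Real.rpow_le_rpow (by norm_num) hq (by positivity)
    _ = q ^ ((d : ℝ) + 5 * (δ * n) - c' / 2 * n) := by
        rw [← Real.rpow_add hq0, ← Real.rpow_add hq0, ← Real.rpow_add hq0]
        congr 1
        ring
    _ ≤ q ^ ((d : ℝ) - δ * n) := by
        refine Real.rpow_le_rpow_of_exponent_le hq1 ?_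
        have : δ * n ≤ c' / 12 * n := by gcongr
        linarith

end Pool.Agent.H604.DE
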