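import Pool.Agent.H604.DE.Stm
import Pool.Agent.H604.OD.Cls

/-!
# Task TCL2 of project DE: the typical sums of `mob (M k) mob (M k + h)` in residue classes
(helper682), adapted from `H604/OD/Cls.lean` (helper71).
-/

set_option autoImplicit false

namespace Pool.Agent.H604.DE

open Polynomial Finset
open scoped Classical
open Pool.Agent.H985.Chow (mob)
open Pool.Agent.H985.KP (mobg)
open Pool.Agent.H694.Typ (Mn Irn wt mem_Mn card_Mn mem_Irn card_dvd_le)
open Pool.Agent.H251.SP (S_tii)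
open Pool.Agent.H527.ME (om S_pw S_big TII typm_mob_le typm_mobg_one)
open Pool.Agent.H604.OD.Cls (gencls)

theorem mob_nsq {K : Type} [Field K] {g : K[X]} (h : ¬ Squarefree g) : mob g = 0 := by
  unfold Pool.Agent.H985.Chow.mob
  rw [if_neg h]

theorem mob_irr_mul {K : Type} [Field K] {P g : K[X]} (hP : Irreducible P) (hg : g ≠ 0)
    (hs : Squarefree (P * g)) : mob (P * g) = - mob g := by
  have hsg : Squarefree g := hs.squarefree_of_dvd (dvd_mul_left _ _)
  unfold Pool.Agent.H985.Chow.mob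
  rw [if_pos hs, if_pos hsg]
  have hPg : P * g ≠ 0 := mul_ne_zero hP.ne_zero hg
  have h1 : Multiset.Rel Associated (UniqueFactorizationMonoid.factors (P * g))
      (P ::ₘ UniqueFactorizationMonoid.factors g) := by
    refine UniqueFactorizationMonoid.factors_unique
      (fun x hx => UniqueFactorizationMonoid.irreducible_of_factor x hx) ?_ ?_
    · intro x hx
      rcases Multiset.mem_cons.mp hx with h | h
      · rw [h]; exact hP
      · exact UniqueFactorizationMonoid.irreducible_of_factor x h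
    · rw [Multiset.prod_cons]
      exact (UniqueFactorizationMonoid.factors_prod hPg).trans
        ((UniqueFactorizationMonoid.factors_prod hg).symm.mul_left P)
  rw [Multiset.card_eq_card_of_rel h1, Multiset.card_cons, pow_succ]
  ring

theorem mob_mul_P {K : Type} [Field K] {P g : K[X]} (hP : Irreducible P) (hg : g ≠ 0) :
    mob (P * g) = if P ∣ g then 0 else - mob g := by
  split_ifs with h
  · apply mob_nsq
    intro hs
    obtain ⟨c, rfl⟩ := h
    exact hP.not_isUnit (hs P ⟨c, by ring⟩)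
  · by_cases hs : Squarefree g
    · apply mob_irr_mul hP hg
      rw [squarefree_mul_iff]
      exact ⟨(hP.isRelPrime_iff_not_dvd).2 h, hP.squarefree, hs⟩
    · rw [mob_nsq hs, mob_nsq, neg_zero]
      intro h2
      exact hs (h2.squarefree_of_dvd (dvd_mul_left _ _))

theorem tcl2 : S_tcl2 := by
  intro htii hpw hbig K _ _ _ ε hε
  obtain ⟨C, c, hc, n₀, H⟩ := htii K ε hε
  set q : ℝ := (Fintype.card K : ℝ) with hq
  have hq2 : (2 : ℝ) ≤ q := Pool.Agent.H694.Typ.q_ge (k := K)
  have hq1 : (1 : ℝ) ≤ q := by linarith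
  have hq0 : (0 : ℝ) < q := by linarith
  refine ⟨C + 4, min (1 / 64) (c / 2), lt_min (by norm_num) (by linarith), max n₀ 2, ?_⟩
  intro n hn d z w h D r u hz hdw hw hh hhn hD hDz hu1
  have hn0 : n₀ ≤ n := le_trans (le_max_left _ _) hn
  have hn2 : 2 ≤ n := le_trans (le_max_right _ _) hn
  have hn2' : (2 : ℝ) ≤ (n : ℝ) := by exact_mod_cast hn2
  have hnpos : (0 : ℝ) ≤ (n : ℝ) := by linarith
  have hzr : (0 : ℝ) ≤ (z : ℝ) := Nat.cast_nonneg z
  set t : ℝ := min ((z : ℝ) / 64) (c * n / 2) with ht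
  have ht0 : 0 ≤ t := le_min (by positivity) (by positivity)
  have ht1 : t ≤ (z : ℝ) / 64 := min_le_left _ _
  have ht2 : t ≤ c * n / 2 := min_le_right _ _
  set Δ : ℝ := (n : ℝ) ^ C * (q ^ (-(z : ℝ) / 32) + q ^ (-c * n)) with hΔ
  have hΔ0 : 0 ≤ Δ := by positivity
  have hT1 : (1 : ℝ) ≤ q ^ t := Real.one_le_rpow hq1 ht0
  set Δ' : ℝ := Δ + q ^ (-(z : ℝ)) with hΔ'
  have hz0 : 0 < q ^ (-(z : ℝ)) := Real.rpow_pos_of_pos hq0 _
  have hΔ'0 : 0 ≤ Δ' := by positivity
  have hTII : ∀ i ∈ Icc z w, TII n i Δ' (fun B : K[X] => (mob B : ℝ) * (mob (B + h) : ℝ)) := by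
    intro i hi α β hα hβ
    rw [mem_Icc] at hi
    have hiw : (i : ℝ) ≤ (w : ℝ) := by exact_mod_cast hi.2
    have hzi : (z : ℝ) ≤ (i : ℝ) := by exact_mod_cast hi.1
    have hin : i ≤ n := by omega
    have hβ' : ∀ B, |β B * (mob B : ℝ)| ≤ 1 := by
      intro B
      rw [abs_mul]
      exact mul_le_one₀ (hβ B) (abs_nonneg _) (typm_mob_le _)
    have h1 := H n hn0 i h 1 α (fun B => β B * (mob B : ℝ)) (le_trans hz hi.1) (hiw.trans hw) hh hhn
      monic_one (by rw [natDegree_one, Nat.cast_zero]; positivity) hα hβ'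
    have e1 : ∑ p ∈ Irn K i, ∑ B ∈ Mn K (n - i), α p * (β B * (mob B : ℝ)) *
          (mobg 1 (p * B + h) : ℝ) =
        ∑ p ∈ Irn K i, ∑ B ∈ Mn K (n - i), α p * (β B * (mob B : ℝ)) * (mob (p * B + h) : ℝ) := by
      refine sum_congr rfl fun p _ => sum_congr rfl fun B _ => ?_
      rw [typm_mobg_one]
    rw [e1] at h1
    have e2 : ∑ p ∈ Irn K i, ∑ B ∈ Mn K (n - i), α p * β B *
          ((mob (p * B) : ℝ) * (mob (p * B + h) : ℝ)) =
        - ∑ p ∈ Irn K i, ∑ B ∈ Mn K (n - i), α p * (β B * (mob B : ℝ)) * (mob (p * B + h) : ℝ) +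
        ∑ p ∈ Irn K i, ∑ B ∈ (Mn K (n - i)).filter (fun B => p ∣ B),
          α p * (β B * (mob B : ℝ)) * (mob (p * B + h) : ℝ) := by
      rw [← sum_neg_distrib, ← sum_add_distrib]
      refine sum_congr rfl fun p hp => ?_
      rw [← sum_neg_distrib, sum_filter, ← sum_add_distrib]
      refine sum_congr rfl fun B hB => ?_
      rw [mob_mul_P (mem_Irn.1 hp).2.2 (mem_Mn.1 hB).1.ne_zero]
      split_ifs with hpB
      · push_cast
        ring
      · push_cast
        ring
    have h5 : |∑ p ∈ Irn K i, ∑ B ∈ (Mn K (n - i)).filter (fun B => p ∣ B),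
          α p * (β B * (mob B : ℝ)) * (mob (p * B + h) : ℝ)| ≤ q ^ (-(z : ℝ)) * q ^ n := by
      refine (abs_sum_le_sum_abs _ _).trans ?_
      have h6 : ∀ p ∈ Irn K i, |∑ B ∈ (Mn K (n - i)).filter (fun B => p ∣ B),
          α p * (β B * (mob B : ℝ)) * (mob (p * B + h) : ℝ)| ≤ q ^ (n - i) * wt K i := by
        intro p hp
        obtain ⟨p1, p2, -⟩ := mem_Irn.1 hp
        refine (abs_sum_le_sum_abs _ _).trans ?_
        refine (sum_le_card_nsmul _ _ 1 fun B _ => ?_).trans ?_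
        · rw [abs_mul, abs_mul]
          exact mul_le_one₀ (mul_le_one₀ (hα p) (abs_nonneg _) (hβ' B)) (abs_nonneg _)
            (typm_mob_le _)
        · rw [nsmul_eq_mul, mul_one]
          have h7 := card_dvd_le (n := n - i) p1
          rw [p2] at h7
          exact h7
      refine (sum_le_card_nsmul _ _ _ h6).trans ?_
      rw [nsmul_eq_mul]
      have h8 : ((Irn K i).card : ℝ) ≤ q ^ i := by
        have h9 : (Irn K i).card ≤ (Mn K i).card := by
          unfold Pool.Agent.H694.Typ.Irn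
          exact card_filter_le _ _
        rw [card_Mn] at h9
        have h12 : ((Irn K i).card : ℝ) ≤ ((Fintype.card K ^ i : ℕ) : ℝ) := Nat.cast_le.2 h9
        rw [Nat.cast_pow] at h12
        exact h12
      have hwt : wt K i = (q ^ i)⁻¹ := by
        unfold Pool.Agent.H694.Typ.wt
        rfl
      have hqi : 0 < q ^ i := by positivity
      have h10 : ((Irn K i).card : ℝ) * (q ^ (n - i) * wt K i) ≤ q ^ (n - i) := by
        rw [hwt]
        calc ((Irn K i).card : ℝ) * (q ^ (n - i) * (q ^ i)⁻¹)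
            ≤ q ^ i * (q ^ (n - i) * (q ^ i)⁻¹) :=
              mul_le_mul_of_nonneg_right h8 (by positivity)
          _ = q ^ (n - i) := by field_simp
      refine h10.trans ?_
      have h11 : q ^ (n - i) = q ^ (-(i : ℝ)) * q ^ n := by
        rw [Real.rpow_neg hq0.le, Real.rpow_natCast, inv_mul_eq_div, eq_div_iff hqi.ne', ← pow_add]
        congr 1
        omega
      rw [h11]
      refine mul_le_mul_of_nonneg_right ?_ (by positivity)
      exact Real.rpow_le_rpow_of_exponent_le hq1 (by linarith)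
    rw [e2]
    refine (abs_add_le _ _).trans ?_
    rw [abs_neg, hΔ', add_mul]
    refine add_le_add (h1.trans ?_) h5
    have h2 : q ^ (-(i : ℝ) / 32) ≤ q ^ (-(z : ℝ) / 32) :=
      Real.rpow_le_rpow_of_exponent_le hq1 (by linarith)
    rw [hΔ, mul_right_comm]
    refine mul_le_mul_of_nonneg_right ?_ (by positivity)
    exact mul_le_mul_of_nonneg_left (by linarith) (by positivity)
  have h4 := gencls hpw hbig (D := D) (r := r) (c := u) (T := q ^ t)
    (φ := fun B : K[X] => (mob B : ℝ) * (mob (B + h) : ℝ)) hz hdw hT1 hΔ'0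
    (fun B => by
      rw [abs_mul]
      exact mul_le_one₀ (typm_mob_le _) (abs_nonneg _) (typm_mob_le _)) hu1 hTII hD
  refine h4.trans ?_
  set E : ℝ := q ^ (-(z : ℝ) / 64) + q ^ (-(c * n / 2)) with hE
  have a1 : 0 < q ^ (-(z : ℝ) / 64) := Real.rpow_pos_of_pos hq0 _
  have a2 : 0 < q ^ (-(c * n / 2)) := Real.rpow_pos_of_pos hq0 _
  have hE0 : 0 < E := by positivity
  have b1 : q ^ t * Δ' ≤ ((n : ℝ) ^ C + 1) * E := by
    have b0 : q ^ t * q ^ (-(z : ℝ)) ≤ E := by
      rw [← Real.rpow_add hq0]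
      have h5 : q ^ (t + -(z : ℝ)) ≤ q ^ (-(z : ℝ) / 64) :=
        Real.rpow_le_rpow_of_exponent_le hq1 (by linarith)
      linarith
    have b01 : q ^ t * Δ ≤ (n : ℝ) ^ C * E := by
      have e1 : q ^ t * Δ = (n : ℝ) ^ C * (q ^ (t + -(z : ℝ) / 32) + q ^ (t + -c * n)) := by
        rw [Real.rpow_add hq0, Real.rpow_add hq0, hΔ]
        ring
      rw [e1]
      refine mul_le_mul_of_nonneg_left (add_le_add ?_ ?_) (by positivity)
      · exact Real.rpow_le_rpow_of_exponent_le hq1 (by linarith)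
      · exact Real.rpow_le_rpow_of_exponent_le hq1 (by linarith)
    rw [hΔ', mul_add, add_mul, one_mul]
    exact add_le_add b01 b0
  have b2 : (n + 1) / q ^ t ≤ (n + 1) * E := by
    rw [div_eq_mul_inv, ← Real.rpow_neg hq0.le]
    refine mul_le_mul_of_nonneg_left ?_ (by positivity)
    rcases min_choice ((z : ℝ) / 64) (c * n / 2) with h5 | h5
    · rw [ht, h5, show -((z : ℝ) / 64) = -(z : ℝ) / 64 by ring]
      linarith
    · rw [ht, h5]
      linarith
  have b3 : q ^ ((n : ℝ) - z) ≤ q ^ n * E := by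
    rw [Real.rpow_sub hq0, Real.rpow_natCast, div_eq_mul_inv, ← Real.rpow_neg hq0.le]
    refine mul_le_mul_of_nonneg_left ?_ (by positivity)
    have h5 : q ^ (-(z : ℝ)) ≤ q ^ (-(z : ℝ) / 64) :=
      Real.rpow_le_rpow_of_exponent_le hq1 (by linarith)
    linarith
  have b4 : E ≤ q ^ (-(min (1 / 64) (c / 2)) * (z : ℝ)) + q ^ (-(min (1 / 64) (c / 2)) * (n : ℝ)) := by
    refine add_le_add ?_ ?_
    · refine Real.rpow_le_rpow_of_exponent_le hq1 ?_
      have h5 : min (1 / 64) (c / 2) ≤ 1 / 64 := min_le_left _ _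
      have h6 := mul_le_mul_of_nonneg_right h5 hzr
      linarith
    · refine Real.rpow_le_rpow_of_exponent_le hq1 ?_
      have h5 : min (1 / 64) (c / 2) ≤ c / 2 := min_le_right _ _
      have h6 := mul_le_mul_of_nonneg_right h5 hnpos
      linarith
  have hqn : 0 < q ^ n := by positivity
  have hnC : (1 : ℝ) ≤ (n : ℝ) ^ C := one_le_pow₀ (by linarith)
  have b5 : (n : ℝ) * (((n : ℝ) ^ C + 1) + (n + 1)) + 4 ≤ (n : ℝ) ^ (C + 4) := by
    rw [pow_add]
    set a := (n : ℝ) ^ C
    set x := (n : ℝ)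
    have h6 : 0 ≤ x * (x ^ 3 - 1) := by
      have : 1 ≤ x ^ 3 := one_le_pow₀ (by linarith)
      exact mul_nonneg hnpos (by linarith)
    have h7 : x * (x ^ 3 - 1) ≤ a * (x * (x ^ 3 - 1)) := le_mul_of_one_le_left h6 hnC
    have h10 : 4 ≤ x ^ 2 := by
      have h9 := mul_le_mul hn2' hn2' (by norm_num) hnpos
      rw [pow_two]
      linarith
    have h8 : x ^ 2 + 2 * x + 4 ≤ x * (x ^ 3 - 1) := by
      have h9 : 4 * x ^ 2 ≤ x ^ 2 * x ^ 2 := mul_le_mul_of_nonneg_right h10 (sq_nonneg x)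
      have h11 : x * (x ^ 3 - 1) = x ^ 2 * x ^ 2 - x := by ring
      have h12 : 2 * x ≤ x ^ 2 := by
        rw [pow_two]
        exact mul_le_mul_of_nonneg_right hn2' hnpos
      rw [h11]
      linarith
    have h12 : a * (x * (x ^ 3 - 1)) = a * x ^ 4 - a * x := by ring
    have h13 : x * ((a + 1) + (x + 1)) + 4 = a * x + (x ^ 2 + 2 * x + 4) := by ring
    rw [h12] at h7
    rw [h13]
    linarith
  set m : ℕ := D.natDegree with hm
  have hqm : (1 : ℝ) ≤ q ^ m := one_le_pow₀ hq1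
  have hqm2 : q ^ m ≤ q ^ (2 * m) := pow_le_pow_right₀ hq1 (by omega)
  have b6 : (n : ℝ) * (q ^ t * Δ' + (n + 1) / q ^ t) * q ^ n ≤
      (n : ℝ) * (((n : ℝ) ^ C + 1) * E + (n + 1) * E) * q ^ n := by
    refine mul_le_mul_of_nonneg_right ?_ hqn.le
    exact mul_le_mul_of_nonneg_left (add_le_add b1 b2) hnpos
  calc q ^ m * ((n : ℝ) * (q ^ t * Δ' + (n + 1) / q ^ t) * q ^ n) + 4 * q ^ ((n : ℝ) - z)
      ≤ q ^ (2 * m) * (n * (((n : ℝ) ^ C + 1) * E + (n + 1) * E) * q ^ n) +
          q ^ (2 * m) * (4 * (q ^ n * E)) := by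
        refine add_le_add ?_ ?_
        · exact mul_le_mul hqm2 b6 (by positivity) (by positivity)
        · refine (mul_le_mul_of_nonneg_left b3 (by norm_num)).trans ?_
          exact le_mul_of_one_le_left (by positivity) (hqm.trans hqm2)
    _ = q ^ (2 * m) * (((n : ℝ) * (((n : ℝ) ^ C + 1) + (n + 1)) + 4) * (q ^ n * E)) := by ring
    _ ≤ q ^ (2 * m) * ((n : ℝ) ^ (C + 4) * (q ^ n * E)) :=
        mul_le_mul_of_nonneg_left (mul_le_mul_of_nonneg_right b5 (by positivity)) (by positivity)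
    _ = (n : ℝ) ^ (C + 4) * q ^ (n + 2 * m) * E := by
        rw [pow_add]
        ring
    _ ≤ _ := mul_le_mul_of_nonneg_left b4 (by positivity)

end Pool.Agent.H604.DE
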