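import Pool.Agent.H604.DE.Stm
import Pool.Agent.H251.SP.MOB

/-!
# DE-MUC: cancellation of `μ(M k)` for `k` in residue classes, every `M` (helper118)
-/

set_option autoImplicit false

namespace Pool.Agent.H604.DE

open Polynomial Finset
open scoped Classical
open Pool.Agent.H985.Chow (mob)
open Pool.Agent.H694.Typ (Mn Irn PU mem_Mn)
open Pool.Agent.H341R2.Sharp (Mon mem_Mon)
open Pool.Agent.Q284.PS (mu)
open Pool.Agent.H251.SP.MOBL (mob_eq_mu mu_mul mu_zero_of_not_coprime abs_mu_le gcd_split core)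

/-- all residue classes, with a factor `M` -/
theorem muc_step {K : Type} [Field K] [Fintype K] (ε : ℝ) (hε : 0 < ε) :
    ∃ C : ℝ, 0 < C ∧ ∀ (M R a : K[X]) (n : ℕ), M.Monic → R.Monic →
    |∑ F ∈ (Mon K n).filter (fun F => R ∣ F - a), mu (M * F)| ≤
      C * √(Fintype.card K : ℝ) ^ n *
        Real.exp (ε * ((n + R.natDegree + M.natDegree : ℕ) : ℝ)) := by
  obtain ⟨C₀, hC, hb⟩ := core (K := K) ε hε
  refine ⟨C₀, hC, ?_⟩
  intro M R a n hM hR
  have hq1 : (1 : ℝ) ≤ √(Fintype.card K : ℝ) := by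
    rw [Real.one_le_sqrt]
    exact_mod_cast Fintype.card_pos (α := K)
  obtain ⟨e, a', R', he, hR', rfl, rfl, hcop⟩ := gcd_split a hR
  by_cases hn : e.natDegree ≤ n
  · have h1 : ∑ F ∈ (Mon K n).filter (fun F => e * R' ∣ F - e * a'), mu (M * F) =
        ∑ F ∈ (Mon K (n - e.natDegree)).filter (fun F => R' ∣ F - a'), mu (M * (e * F)) := by
      symm
      refine sum_bij (fun F _ => e * F) ?_ ?_ ?_ ?_
      · intro F hF
        rw [mem_filter, mem_Mon] at hF ⊢
        refine ⟨⟨he.mul hF.1.1, ?_⟩, ?_⟩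
        · rw [he.natDegree_mul hF.1.1, hF.1.2]
          omega
        · rw [← mul_sub]
          exact mul_dvd_mul_left e hF.2
      · intro F _ F' _ h
        exact mul_left_cancel₀ he.ne_zero h
      · intro F hF
        rw [mem_filter, mem_Mon] at hF
        have h2 : e ∣ F := by
          have h3 := dvd_add ((dvd_mul_right e R').trans hF.2) (dvd_mul_right e a')
          rwa [sub_add_cancel] at h3
        obtain ⟨F', rfl⟩ := h2
        have hF'm : F'.Monic := he.of_mul_monic_left hF.1.1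
        refine ⟨F', ?_, rfl⟩
        rw [mem_filter, mem_Mon]
        refine ⟨⟨hF'm, ?_⟩, ?_⟩
        · have := hF.1.2
          rw [he.natDegree_mul hF'm] at this
          omega
        · have h4 := hF.2
          rw [← mul_sub] at h4
          exact (mul_dvd_mul_iff_left he.ne_zero).mp h4
      · intro F _
        rfl
    have h2 : ∑ F ∈ (Mon K (n - e.natDegree)).filter (fun F => R' ∣ F - a'), mu (M * (e * F)) =
        mu (M * e) * ∑ F ∈ (Mon K (n - e.natDegree)).filter
          (fun F => R' ∣ F - a' ∧ IsCoprime F (M * e)), mu F := by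
      have h3 : (Mon K (n - e.natDegree)).filter (fun F => R' ∣ F - a' ∧ IsCoprime F (M * e)) =
          ((Mon K (n - e.natDegree)).filter (fun F => R' ∣ F - a')).filter
            (fun F => IsCoprime F (M * e)) := by
        rw [filter_filter]
      rw [h3, sum_filter (fun F => IsCoprime F (M * e)), mul_sum]
      refine sum_congr rfl fun F hF => ?_
      have hFm := (mem_Mon.mp (mem_filter.mp hF).1).1
      rw [← mul_assoc]
      split_ifs with h4
      · exact mu_mul (hM.mul he) hFm h4.symm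
      · rw [mul_zero]
        exact mu_zero_of_not_coprime (fun h5 => h4 h5.symm)
    rw [h1, h2, abs_mul]
    have h3 := hb R' (M * e) a' (n - e.natDegree) hR' (hM.mul he) hcop
    have h4 : |mu (M * e)| * |∑ F ∈ (Mon K (n - e.natDegree)).filter
        (fun F => R' ∣ F - a' ∧ IsCoprime F (M * e)), mu F| ≤
        1 * (C₀ * √(Fintype.card K : ℝ) ^ (n - e.natDegree) *
          Real.exp (ε * ((n - e.natDegree + R'.natDegree + (M * e).natDegree : ℕ) : ℝ))) :=
      mul_le_mul (abs_mu_le _) h3 (abs_nonneg _) zero_le_one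
    refine h4.trans ?_
    rw [one_mul]
    apply mul_le_mul
    · apply mul_le_mul_of_nonneg_left _ hC.le
      exact pow_le_pow_right₀ hq1 (by omega)
    · apply Real.exp_le_exp.mpr
      apply mul_le_mul_of_nonneg_left _ hε.le
      have h5 : n - e.natDegree + R'.natDegree + (M * e).natDegree ≤
          n + (e * R').natDegree + M.natDegree := by
        rw [he.natDegree_mul hR', hM.natDegree_mul he]
        omega
      exact_mod_cast h5
    · exact (Real.exp_pos _).le
    · positivity
  · rw [filter_false_of_mem, sum_empty, abs_zero]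
    · positivity
    · intro F hF hdiv
      rw [mem_Mon] at hF
      have h2 : e ∣ F := by
        have h3 := dvd_add ((dvd_mul_right e R').trans hdiv) (dvd_mul_right e a')
        rwa [sub_add_cancel] at h3
      have h3 := natDegree_le_of_dvd h2 hF.1.ne_zero
      omega

/-- **Task MUC.** -/
theorem muc : S_muc := by
  intro K _ _ ε hε
  have hl2 : 0 < Real.log 2 := Real.log_pos (by norm_num)
  obtain ⟨C, hC, hb⟩ := muc_step (K := K) (ε * Real.log 2 / 16) (by positivity)
  obtain ⟨δ, hδ⟩ : ∃ δ : ℝ, δ = min (ε / 8) 1 := ⟨_, rfl⟩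
  have hδ0 : 0 < δ := by
    rw [hδ]
    exact lt_min (by positivity) one_pos
  have hδ1 : δ ≤ 1 := by
    rw [hδ]
    exact min_le_right _ _
  have hδ8 : δ ≤ ε / 8 := by
    rw [hδ]
    exact min_le_left _ _
  obtain ⟨n₀, hn₀⟩ := exists_nat_ge (C / (ε / 4 * Real.log 2))
  refine ⟨δ, hδ0, n₀, fun n hn d M D r hM hd hD hDn => ?_⟩
  rw [mem_Mn] at hM
  obtain ⟨hMm, hMd⟩ := hM
  have hn0 : (0 : ℝ) ≤ n := Nat.cast_nonneg n
  have hdn : d ≤ n := by
    have h1 : (d : ℝ) ≤ n := by nlinarith
    exact_mod_cast h1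
  have hq2 : (2 : ℝ) ≤ (Fintype.card K : ℝ) := by
    exact_mod_cast Fintype.one_lt_card (α := K)
  have hq0 : (0 : ℝ) < (Fintype.card K : ℝ) := by linarith
  obtain ⟨L, hL⟩ : ∃ L : ℝ, L = Real.log (Fintype.card K : ℝ) := ⟨_, rfl⟩
  have hL2 : Real.log 2 ≤ L := by
    rw [hL]
    exact Real.log_le_log (by norm_num) hq2
  have h1 : ∑ k ∈ (Mn K (n - d)).filter (fun k => D ∣ k - r), (mob (M * k) : ℝ) =
      ∑ F ∈ (Mon K (n - d)).filter (fun F => D ∣ F - r), mu (M * F) := by
    have h2 : (Mn K (n - d)).filter (fun k => D ∣ k - r) =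
        (Mon K (n - d)).filter (fun F => D ∣ F - r) := by
      ext F
      rw [mem_filter, mem_filter, mem_Mn, mem_Mon]
    rw [h2]
    exact sum_congr rfl fun F _ => mob_eq_mu _
  rw [h1]
  refine (hb M D r (n - d) hMm hD).trans ?_
  have hsq : √(Fintype.card K : ℝ) ^ (n - d) = Real.exp (L * (1 / 2 * ((n : ℝ) - d))) := by
    rw [Real.sqrt_eq_rpow, ← Real.rpow_natCast, ← Real.rpow_mul hq0.le,
      Real.rpow_def_of_pos hq0, ← hL, Nat.cast_sub hdn]
  have hrhs : (Fintype.card K : ℝ) ^ ((n : ℝ) - d - δ * n) =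
      Real.exp (L * ((n : ℝ) - d - δ * n)) := by
    rw [Real.rpow_def_of_pos hq0, ← hL]
  have hCn : C ≤ Real.exp (ε / 4 * Real.log 2 * n) := by
    have h2 : C / (ε / 4 * Real.log 2) ≤ n := hn₀.trans (by exact_mod_cast hn)
    rw [div_le_iff₀ (by positivity)] at h2
    have h3 := Real.add_one_le_exp (ε / 4 * Real.log 2 * n)
    linarith
  rw [hsq, hrhs, hMd]
  have hm : ((n - d + D.natDegree + d : ℕ) : ℝ) ≤ 2 * n := by
    have h2 : n - d + D.natDegree + d = n + D.natDegree := by omega
    rw [h2]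
    push_cast
    have h3 : δ * n ≤ 1 * n := mul_le_mul_of_nonneg_right hδ1 hn0
    linarith
  calc C * Real.exp (L * (1 / 2 * ((n : ℝ) - d))) *
        Real.exp (ε * Real.log 2 / 16 * ((n - d + D.natDegree + d : ℕ) : ℝ))
      ≤ Real.exp (ε / 4 * Real.log 2 * n) * Real.exp (L * (1 / 2 * ((n : ℝ) - d))) *
        Real.exp (ε * Real.log 2 / 16 * (2 * n)) := by
        refine mul_le_mul (mul_le_mul_of_nonneg_right hCn (Real.exp_pos _).le)
          (Real.exp_le_exp.2 (mul_le_mul_of_nonneg_left hm (by positivity)))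
          (Real.exp_pos _).le (by positivity)
    _ = Real.exp (ε / 4 * Real.log 2 * n + L * (1 / 2 * ((n : ℝ) - d)) +
        ε * Real.log 2 / 16 * (2 * n)) := by
        rw [Real.exp_add, Real.exp_add]
    _ ≤ Real.exp (L * ((n : ℝ) - d - δ * n)) := by
        refine Real.exp_le_exp.2 ?_
        have h3 : 3 * ε / 8 * n ≤ 1 / 2 * ((n : ℝ) - d) - δ * n := by
          have h4 : δ * n ≤ ε / 8 * n := mul_le_mul_of_nonneg_right hδ8 hn0
          linarith
        have h5 : Real.log 2 * (3 * ε / 8 * n) ≤ L * (1 / 2 * ((n : ℝ) - d) - δ * n) :=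
          mul_le_mul hL2 h3 (by positivity) (by linarith)
        linarith

end Pool.Agent.H604.DE
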