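import Pool.Agent.H604.DE.Stm
import Pool.Agent.H985.Chow.Typ

/-!
# Task PHA (helper789 for helper604): the average of `|M| / φ(M)` is bounded
-/

set_option autoImplicit false
set_option linter.all false

namespace Pool.Agent.H604.DE

open Polynomial Finset
open scoped Classical
open Pool.Agent.H694.Typ (Mn Irn PU mem_Mn mem_Irn mem_PU card_dvd_le sum_PU irn_one_le q_ge wt
  wt_nonneg wt_le_half geo_half_le)
open Pool.Agent.H604.OD (phi)

namespace Pha789

variable {K : Type} [Field K] [Fintype K]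

theorem irn_wt (j : ℕ) (hj : 1 ≤ j) : ((Irn K j).card : ℝ) * wt K j ≤ 1 := by
  have hq := q_ge (k := K)
  have h1 : (j : ℝ) * (Irn K j).card ≤ (Fintype.card K : ℝ) ^ j := by
    exact_mod_cast irn_one_le (k := K) (d := j) hj
  have hpos : (0 : ℝ) < (Fintype.card K : ℝ) ^ j := by positivity
  have hj0 : (1 : ℝ) ≤ j := by exact_mod_cast hj
  have hc : (0 : ℝ) ≤ ((Irn K j).card : ℝ) := Nat.cast_nonneg _
  unfold wt
  rw [← div_eq_mul_inv, div_le_one hpos]
  nlinarith

theorem sum_wt_sq (m : ℕ) : ∑ P ∈ PU K m, wt K P.natDegree ^ 2 ≤ 1 := by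
  rw [sum_PU]
  have h : ∀ j ∈ Finset.Icc (0 + 1) m, ∑ P ∈ Irn K j, wt K P.natDegree ^ 2 ≤ (1 / 2 : ℝ) ^ j := by
    intro j hj
    rw [mem_Icc] at hj
    rw [sum_congr rfl (fun P hP => by rw [(mem_Irn.1 hP).2.1]), sum_const, nsmul_eq_mul]
    have h1 := irn_wt (K := K) j (by omega)
    have h2 := wt_le_half (k := K) j
    have h3 := wt_nonneg (k := K) j
    calc ((Irn K j).card : ℝ) * wt K j ^ 2 = (((Irn K j).card : ℝ) * wt K j) * wt K j := by ring
      _ ≤ 1 * wt K j := mul_le_mul_of_nonneg_right h1 h3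
      _ ≤ _ := by rw [one_mul]; exact h2
  have h4 := (sum_le_sum h).trans (geo_half_le 0 m)
  simpa using h4

/-- distinct monic irreducible polynomials are coprime -/
theorem cop {P Q : K[X]} (hP : P.Monic) (hPi : Irreducible P) (hQ : Q.Monic) (hQi : Irreducible Q)
    (h : P ≠ Q) : IsCoprime P Q := by
  by_cases h1 : P ∣ Q
  · exfalso
    have h2 : Associated P Q := hPi.associated_of_dvd hQi h1
    exact h (eq_of_monic_of_associated hP hQ h2)
  · exact hPi.coprime_iff_not_dvd.2 h1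

theorem prod_facts (d : ℕ) (T : Finset K[X]) (hT : T ⊆ PU K d) :
    (∏ P ∈ T, P).Monic ∧ (∏ P ∈ T, P).natDegree = ∑ P ∈ T, P.natDegree ∧
      ∀ M : K[X], (∀ P ∈ T, P ∣ M) → ∏ P ∈ T, P ∣ M := by
  have hm : ∀ P ∈ T, P.Monic := fun P hP => (mem_PU.1 (hT hP)).1
  refine ⟨monic_prod_of_monic _ _ hm, natDegree_prod_of_monic _ _ hm, fun M hM => ?_⟩
  refine Finset.prod_dvd_of_coprime ?_ hM
  intro P hP Q hQ hne
  exact cop (hm P hP) (mem_PU.1 (hT hP)).2.1 (hm Q hQ) (mem_PU.1 (hT hQ)).2.1 hne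

theorem wt_sum (T : Finset K[X]) : wt K (∑ P ∈ T, P.natDegree) = ∏ P ∈ T, wt K P.natDegree := by
  unfold wt
  rw [← Finset.prod_pow_eq_pow_sum, Finset.prod_inv_distrib]

theorem phi_eq (d : ℕ) (M : K[X]) (hM : M ∈ Mn K d) :
    phi M = (Fintype.card K : ℝ) ^ d *
      ∏ P ∈ (PU K d).filter (fun P => P ∣ M), (1 - wt K P.natDegree) := by
  obtain ⟨h1, h2⟩ := mem_Mn.1 hM
  unfold phi
  rw [h2]
  congr 1
  have e : {P : K[X] | P.Monic ∧ Irreducible P ∧ P ∣ M} =
      (((PU K d).filter (fun P => P ∣ M) : Finset K[X]) : Set K[X]) := by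
    ext P
    rw [Set.mem_setOf_eq, Finset.mem_coe, mem_filter, mem_PU]
    constructor
    · rintro ⟨a, b, c⟩
      refine ⟨⟨a, b, ?_⟩, c⟩
      rw [← h2]
      exact natDegree_le_of_dvd c h1.ne_zero
    · rintro ⟨⟨a, b, -⟩, c⟩
      exact ⟨a, b, c⟩
  rw [e, finprod_mem_coe_finset]
  refine Finset.prod_congr rfl fun P _ => ?_
  unfold wt
  rw [one_div]

theorem inv_phi_le (d : ℕ) (M : K[X]) (hM : M ∈ Mn K d) :
    1 / phi M ≤ wt K d * ∏ P ∈ (PU K d).filter (fun P => P ∣ M), (1 + 2 * wt K P.natDegree) := by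
  rw [phi_eq d M hM, one_div, mul_inv, ← Finset.prod_inv_distrib]
  have e : ((Fintype.card K : ℝ) ^ d)⁻¹ = wt K d := rfl
  rw [e]
  refine mul_le_mul_of_nonneg_left ?_ (wt_nonneg d)
  refine Finset.prod_le_prod (fun P hP => ?_) (fun P hP => ?_)
  · obtain ⟨h1, h2⟩ := mem_filter.1 hP
    have h3 := (mem_PU.1 h1).2.1.natDegree_pos
    have h4 := wt_le_half (k := K) P.natDegree
    have h5 : (1 / 2 : ℝ) ^ P.natDegree ≤ 1 / 2 := by
      calc (1 / 2 : ℝ) ^ P.natDegree ≤ (1 / 2 : ℝ) ^ 1 :=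
            pow_le_pow_of_le_one (by norm_num) (by norm_num) h3
        _ = 1 / 2 := pow_one _
    exact inv_nonneg.2 (by linarith)
  · obtain ⟨h1, h2⟩ := mem_filter.1 hP
    have h3 := (mem_PU.1 h1).2.1.natDegree_pos
    have h4 := wt_le_half (k := K) P.natDegree
    have h5 : (1 / 2 : ℝ) ^ P.natDegree ≤ 1 / 2 := by
      calc (1 / 2 : ℝ) ^ P.natDegree ≤ (1 / 2 : ℝ) ^ 1 :=
            pow_le_pow_of_le_one (by norm_num) (by norm_num) h3
        _ = 1 / 2 := pow_one _
    have h6 := wt_nonneg (k := K) P.natDegree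
    rw [inv_le_iff_one_le_mul₀ (by linarith)]
    nlinarith

theorem prod_expand (d : ℕ) (M : K[X]) :
    ∏ P ∈ (PU K d).filter (fun P => P ∣ M), (1 + 2 * wt K P.natDegree) =
      ∑ T ∈ (PU K d).powerset, if (∀ P ∈ T, P ∣ M) then ∏ P ∈ T, (2 * wt K P.natDegree) else 0 := by
  rw [Finset.prod_one_add, ← Finset.sum_filter]
  refine Finset.sum_congr ?_ fun _ _ => rfl
  ext T
  rw [mem_powerset, mem_filter, mem_powerset]
  constructor
  · intro h
    exact ⟨fun P hP => (mem_filter.1 (h hP)).1, fun P hP => (mem_filter.1 (h hP)).2⟩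
  · rintro ⟨h1, h2⟩ P hP
    exact mem_filter.2 ⟨h1 hP, h2 P hP⟩

theorem count_le (d : ℕ) (T : Finset K[X]) (hT : T ⊆ PU K d) :
    (((Mn K d).filter (fun M => ∀ P ∈ T, P ∣ M)).card : ℝ) ≤
      (Fintype.card K : ℝ) ^ d * ∏ P ∈ T, wt K P.natDegree := by
  obtain ⟨h1, h2, h3⟩ := prod_facts d T hT
  have h4 := card_dvd_le (n := d) h1
  rw [h2, wt_sum] at h4
  refine le_trans ?_ h4
  have h5 : (Mn K d).filter (fun M => ∀ P ∈ T, P ∣ M) ⊆
      (Mn K d).filter (fun M => (∏ P ∈ T, P) ∣ M) := by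
    intro M hM
    obtain ⟨a, b⟩ := mem_filter.1 hM
    exact mem_filter.2 ⟨a, h3 M b⟩
  exact_mod_cast Finset.card_le_card h5

theorem main (d : ℕ) : ∑ M ∈ Mn K d, 1 / phi M ≤ Real.exp 2 := by
  have hq := q_ge (k := K)
  have hw : wt K d * (Fintype.card K : ℝ) ^ d = 1 := by
    unfold wt
    exact inv_mul_cancel₀ (by positivity)
  calc ∑ M ∈ Mn K d, 1 / phi M
      ≤ ∑ M ∈ Mn K d, wt K d * ∑ T ∈ (PU K d).powerset,
          if (∀ P ∈ T, P ∣ M) then ∏ P ∈ T, (2 * wt K P.natDegree) else 0 := by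
        refine Finset.sum_le_sum fun M hM => ?_
        rw [← prod_expand]
        exact inv_phi_le d M hM
    _ = wt K d * ∑ T ∈ (PU K d).powerset, (∏ P ∈ T, (2 * wt K P.natDegree)) *
          (((Mn K d).filter (fun M => ∀ P ∈ T, P ∣ M)).card : ℝ) := by
        rw [← Finset.mul_sum, Finset.sum_comm]
        congr 1
        refine Finset.sum_congr rfl fun T _ => ?_
        rw [← Finset.sum_filter, Finset.sum_const, nsmul_eq_mul, mul_comm]
    _ ≤ wt K d * ∑ T ∈ (PU K d).powerset, (Fintype.card K : ℝ) ^ d *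
          ∏ P ∈ T, (2 * wt K P.natDegree ^ 2) := by
        refine mul_le_mul_of_nonneg_left (Finset.sum_le_sum fun T hT => ?_) (wt_nonneg d)
        have h1 := count_le d T (mem_powerset.1 hT)
        have h2 : 0 ≤ ∏ P ∈ T, (2 * wt K P.natDegree) :=
          Finset.prod_nonneg fun P _ => mul_nonneg (by norm_num) (wt_nonneg _)
        calc (∏ P ∈ T, (2 * wt K P.natDegree)) *
              (((Mn K d).filter (fun M => ∀ P ∈ T, P ∣ M)).card : ℝ)
            ≤ (∏ P ∈ T, (2 * wt K P.natDegree)) *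
              ((Fintype.card K : ℝ) ^ d * ∏ P ∈ T, wt K P.natDegree) :=
              mul_le_mul_of_nonneg_left h1 h2
          _ = (Fintype.card K : ℝ) ^ d * ((∏ P ∈ T, (2 * wt K P.natDegree)) *
              ∏ P ∈ T, wt K P.natDegree) := by ring
          _ = _ := by
              rw [← Finset.prod_mul_distrib]
              congr 1
              exact Finset.prod_congr rfl fun P _ => by ring
    _ = ∏ P ∈ PU K d, (1 + 2 * wt K P.natDegree ^ 2) := by
        rw [← Finset.mul_sum, ← mul_assoc, hw, one_mul, Finset.prod_one_add]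
    _ ≤ ∏ P ∈ PU K d, Real.exp (2 * wt K P.natDegree ^ 2) := by
        refine Finset.prod_le_prod (fun P _ => by positivity) fun P _ => ?_
        rw [add_comm]
        exact Real.add_one_le_exp _
    _ = Real.exp (2 * ∑ P ∈ PU K d, wt K P.natDegree ^ 2) := by
        rw [← Real.exp_sum, Finset.mul_sum]
    _ ≤ Real.exp 2 := by
        apply Real.exp_le_exp.2
        have := sum_wt_sq (K := K) d
        linarith

end Pha789

theorem pha : S_pha := by
  intro K _ _
  exact ⟨Real.exp 2, Real.exp_pos 2, fun d => Pha789.main d⟩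

end Pool.Agent.H604.DE
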