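import Pool.Agent.H604.DE.AsmC
import Pool.Agent.H604.DE.Cl2
import Pool.Agent.H604.DE.Bd2
import Pool.Agent.H604.DE.Muc
import Pool.Agent.H604.DE.Pha
import Pool.Agent.H604.OD.Final

/-!
# Project DE: the theorem (helper604)
-/

set_option autoImplicit false

namespace Pool.Agent.H604.DE

open Pool.Agent.H604.OD

theorem bad2 : S_bad2 := tbd2 (tcl2 Pool.Agent.H251.SP.s_tii Pool.Agent.H527.ME.pw
  (Pool.Agent.H527.ME.big Pool.Agent.H527.ME.div'))

theorem diag : S_deh :=
  deh level (perD bad2 muc (tmn sw') (tats sw' Pool.Agent.H524.MT.mert)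
    (tsqf Pool.Agent.H527.ME.div') (tvmb Pool.Agent.H524.MT.mert))
    (tvmb Pool.Agent.H524.MT.mert) pha

end Pool.Agent.H604.DE
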